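import Mathlib

set_option autoImplicit false

open MulOpposite Cardinal

namespace Pool.Agent.H82.Zg

/-- A pp condition in one free variable `v` over `S`, for left `S`-modules:
`∃ w_1 … w_m, ⋀_j a_j v + ∑_i b_{ij} w_i = 0`. -/
structure PPFormula (S : Type) where
  m : ℕ
  k : ℕ
  a : Fin k → S
  b : Fin m → Fin k → S

/-- The solution set of a pp condition in a left `S`-module. -/
def PPFormula.sol {S : Type} [Ring S] (φ : PPFormula S) (M : Type) [AddCommGroup M]
    [Module S M] : Set M :=
  {v | ∃ w : Fin φ.m → M, ∀ j, φ.a j • v + ∑ i, φ.b i j • w i = 0}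

/-- A pure embedding of left `S`-modules: an injective linear map such that every finite system of
linear equations with constants from `A` that has a solution in `B` has a solution in `A`. -/
def IsPureEmbedding {S : Type} [Ring S] {A B : Type} [AddCommGroup A] [Module S A]
    [AddCommGroup B] [Module S B] (f : A →ₗ[S] B) : Prop :=
  Function.Injective f ∧
    ∀ (m k : ℕ) (b : Fin m → Fin k → S) (c : Fin k → A),
      (∃ w : Fin m → B, ∀ j, ∑ i, b i j • w i = f (c j)) →
        ∃ w : Fin m → A, ∀ j, ∑ i, b i j • w i = c j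

/-- A left `S`-module is pure-injective if every homomorphism into it extends along every pure
embedding. -/
def IsPureInjective (S : Type) [Ring S] (M : Type) [AddCommGroup M] [Module S M] : Prop :=
  ∀ (A B : Type) [AddCommGroup A] [Module S A] [AddCommGroup B] [Module S B]
    (f : A →ₗ[S] B), IsPureEmbedding f → ∀ g : A →ₗ[S] M,
      ∃ h : B →ₗ[S] M, ∀ x, h (f x) = g x

/-- A left `S`-module is indecomposable if it is nonzero and is not the direct sum of two nonzero
submodules. -/
def IsIndecomposable (S : Type) [Ring S] (M : Type) [AddCommGroup M] [Module S M] : Prop :=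
  Nontrivial M ∧ ∀ A B : Submodule S M, IsCompl A B → A = ⊥ ∨ B = ⊥

/-- An indecomposable pure-injective left `S`-module. -/
structure IndecPureInj (S : Type) [Ring S] where
  carrier : Type
  [grp : AddCommGroup carrier]
  [mod : Module S carrier]
  pinj : IsPureInjective S carrier
  indec : IsIndecomposable S carrier

attribute [instance] IndecPureInj.grp IndecPureInj.mod

/-- Isomorphism of indecomposable pure-injective modules. -/
def isoSetoid (S : Type) [Ring S] : Setoid (IndecPureInj S) where
  r N N' := Nonempty (N.carrier ≃ₗ[S] N'.carrier)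
  iseqv :=
    ⟨fun _ => ⟨LinearEquiv.refl _ _⟩, fun ⟨e⟩ => ⟨e.symm⟩, fun ⟨e⟩ ⟨e'⟩ => ⟨e.trans e'⟩⟩

/-- The left Ziegler spectrum of `S`: the set of isomorphism classes of indecomposable
pure-injective left `S`-modules. -/
def LeftZg (S : Type) [Ring S] : Type 1 := Quotient (isoSetoid S)

/-- The isomorphism class of an indecomposable pure-injective module. -/
def cls {S : Type} [Ring S] (N : IndecPureInj S) : LeftZg S := Quotient.mk (isoSetoid S) N

/-- The set `(φ/ψ)` of the classes of the modules `N` such that `φ(N)` is not contained in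
`ψ(N)`. -/
def basic {S : Type} [Ring S] (φ ψ : PPFormula S) : Set (LeftZg S) :=
  {x | ∃ N : IndecPureInj S, x = cls N ∧ ¬ φ.sol N.carrier ⊆ ψ.sol N.carrier}

/-- The Ziegler topology, with the sets `(φ/ψ)` as a (sub)basis of open sets. -/
instance zieglerTopology (S : Type) [Ring S] : TopologicalSpace (LeftZg S) :=
  TopologicalSpace.generateFrom {U | ∃ φ ψ : PPFormula S, U = basic φ ψ}

/-- The right Ziegler spectrum of `R`: right `R`-modules are left modules over the opposite
ring. -/
abbrev RightZg (R : Type) [Ring R] : Type 1 := LeftZg Rᵐᵒᵖ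

/-! ### Modules over von Neumann regular rings -/

/-- A finitely generated left ideal of a von Neumann regular ring is generated by an idempotent
that fixes it. -/
theorem exists_right_unit {S : Type} [Ring S] (hS : ∀ a : S, ∃ x : S, a * x * a = a) (k : ℕ)
    (β : Fin k → S) :
    ∃ γ : Fin k → S, ∀ j, β j * (∑ i, γ i * β i) = β j := by
  induction k with
  | zero => exact ⟨fun _ => 0, fun j => j.elim0⟩
  | succ k ih =>
    obtain ⟨γ, hγ⟩ := ih (fun i => β i.castSucc)
    set e := ∑ i : Fin k, γ i * β i.castSucc with he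
    set b := β (Fin.last k) with hb
    obtain ⟨x, hx⟩ := hS (b * (1 - e))
    refine ⟨Fin.snoc (fun i => γ i - (1 - e) * x * b * γ i) ((1 - e) * x), ?_⟩
    have hsum : (∑ i, (Fin.snoc (fun i => γ i - (1 - e) * x * b * γ i) ((1 - e) * x) :
        Fin (k + 1) → S) i * β i) = e + (1 - e) * x * (b * (1 - e)) := by
      rw [Fin.sum_univ_castSucc]
      simp only [Fin.snoc_castSucc, Fin.snoc_last]
      have : ∑ i : Fin k, (γ i - (1 - e) * x * b * γ i) * β i.castSucc =
          e - (1 - e) * x * b * e := by
        conv_rhs => rw [he]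
        rw [Finset.mul_sum, ← Finset.sum_sub_distrib]
        refine Finset.sum_congr rfl fun i _ => ?_
        rw [← he]
        simp only [sub_mul, mul_assoc]
      rw [this, ← hb]
      noncomm_ring
    rw [hsum]
    intro j
    refine Fin.lastCases ?_ (fun j => ?_) j
    · rw [← hb]
      have h1 : b * (e + (1 - e) * x * (b * (1 - e))) =
          b * e + b * (1 - e) * x * (b * (1 - e)) := by
        noncomm_ring
      rw [h1, hx]
      noncomm_ring
    · have h1 : β j.castSucc * (e + (1 - e) * x * (b * (1 - e))) =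
          β j.castSucc * e + (β j.castSucc - β j.castSucc * e) * x * (b * (1 - e)) := by
        noncomm_ring
      rw [h1, hγ j, sub_self, zero_mul, zero_mul, add_zero]

/-- Over a von Neumann regular ring every embedding is pure. -/
theorem pure_of_regular {S : Type} [Ring S] (hS : ∀ a : S, ∃ x : S, a * x * a = a)
    {A B : Type} [AddCommGroup A] [Module S A] [AddCommGroup B] [Module S B] (f : A →ₗ[S] B)
    (hf : Function.Injective f) : IsPureEmbedding f := by
  refine ⟨hf, fun m k b c => ?_⟩
  induction m generalizing c with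
  | zero =>
    rintro ⟨w, hw⟩
    refine ⟨fun i => i.elim0, fun j => ?_⟩
    have := hw j
    rw [Finset.univ_eq_empty, Finset.sum_empty] at this ⊢
    exact hf (by rw [map_zero]; exact this)
  | succ m ih =>
    obtain ⟨γ, hγ⟩ := exists_right_unit hS k (fun j => b (Fin.last m) j)
    -- the reduced system
    have key : ∀ (M : Type) [AddCommGroup M] [Module S M] (w : Fin m → M) (c : Fin k → M)
        (l : Fin k),
        ∑ i, (b i.castSucc l - b (Fin.last m) l * ∑ j, γ j * b i.castSucc j) • w i =
          (∑ i : Fin m, b i.castSucc l • w i) -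
            b (Fin.last m) l • ∑ j, γ j • ∑ i : Fin m, b i.castSucc j • w i := by
      intro M _ _ w c l
      simp only [sub_smul, Finset.sum_sub_distrib, mul_smul, Finset.sum_smul, Finset.smul_sum]
      congr 1
      exact Finset.sum_comm
    rintro ⟨w, hw⟩
    obtain ⟨w', hw'⟩ := ih (fun i l => b i.castSucc l - b (Fin.last m) l * ∑ j, γ j * b i.castSucc j)
      (fun l => c l - b (Fin.last m) l • ∑ j, γ j • c j) ⟨fun i => w i.castSucc, fun l => by
        rw [key B (fun i => w i.castSucc) (fun j => f (c j))]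
        have h1 : ∀ j, ∑ i : Fin m, b i.castSucc j • w i.castSucc =
            f (c j) - b (Fin.last m) j • w (Fin.last m) := by
          intro j
          rw [← hw j, Fin.sum_univ_castSucc, add_sub_cancel_right]
        simp only [h1]
        have h2 : b (Fin.last m) l • ∑ j, γ j • b (Fin.last m) j • w (Fin.last m) =
            b (Fin.last m) l • w (Fin.last m) := by
          have : ∑ j, γ j • b (Fin.last m) j • w (Fin.last m) =
              (∑ j, γ j * b (Fin.last m) j) • w (Fin.last m) := by
            rw [Finset.sum_smul]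
            simp only [mul_smul]
          rw [this, ← mul_smul, hγ l]
        simp only [smul_sub, Finset.sum_sub_distrib]
        rw [h2, map_sub, map_smul, map_sum]
        simp only [map_smul]
        abel⟩
    refine ⟨Fin.snoc w' (∑ j, γ j • (c j - ∑ i : Fin m, b i.castSucc j • w' i)), fun l => ?_⟩
    rw [Fin.sum_univ_castSucc]
    simp only [Fin.snoc_castSucc, Fin.snoc_last]
    have h3 := hw' l
    rw [key A w' c] at h3
    simp only [smul_sub, Finset.sum_sub_distrib] at h3 ⊢
    have h4 : ∑ i : Fin m, b i.castSucc l • w' i = c l - b (Fin.last m) l • ∑ j, γ j • c j +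
        b (Fin.last m) l • ∑ j, γ j • ∑ i : Fin m, b i.castSucc j • w' i := by
      rw [← h3]; abel
    rw [h4]
    abel


/-- Every module embeds in an injective one. -/
theorem exists_injective (S : Type) [Ring S] (T : Type) [AddCommGroup T] [Module S T] :
    ∃ (Q : Type) (_ : AddCommGroup Q) (_ : Module S Q) (_ : Module.Injective S Q)
      (j : T →ₗ[S] Q), Function.Injective j := by
  have : CategoryTheory.EnoughInjectives (ModuleCat.{0} S) := ModuleCat.enoughInjectives.{0} S
  let J := CategoryTheory.Injective.under (ModuleCat.of S T)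
  let ι := CategoryTheory.Injective.ι (ModuleCat.of S T)
  have hJ : CategoryTheory.Injective (ModuleCat.of S J) :=
    inferInstanceAs (CategoryTheory.Injective J)
  exact ⟨J, inferInstance, inferInstance, Module.injective_module_of_injective_object S J,
    ι.hom, (ModuleCat.mono_iff_injective ι).1 inferInstance⟩

/-- In an injective module every submodule is essential in a direct summand. -/
theorem exists_summand {S : Type} [Ring S] {Q : Type} [AddCommGroup Q] [Module S Q]
    (hQ : Module.Injective S Q) (T : Submodule S Q) :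
    ∃ E B : Submodule S Q, T ≤ E ∧ IsCompl E B ∧ ∀ C ≤ E, Disjoint C T → C = ⊥ := by
  obtain ⟨B, -, hB⟩ := zorn_le_nonempty₀ {B : Submodule S Q | Disjoint B T} (by
    intro c hc hchain M0 hM0
    refine ⟨sSup c, ?_, fun z hz => le_sSup hz⟩
    rw [Set.mem_ofPred_eq, Submodule.disjoint_def]
    intro x hx hxE
    rw [Submodule.mem_sSup_of_directed ⟨M0, hM0⟩ hchain.directedOn] at hx
    obtain ⟨M', hM', hxM'⟩ := hx
    exact Submodule.disjoint_def.1 (hc hM') x hxM' hxE) ⊥ disjoint_bot_left
  have hBT : Disjoint B T := hB.prop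
  obtain ⟨E, hTE, hE⟩ := zorn_le_nonempty₀ {E : Submodule S Q | T ≤ E ∧ Disjoint E B} (by
    intro c hc hchain E0 hE0
    refine ⟨sSup c, ⟨(hc hE0).1.trans (le_sSup hE0), ?_⟩, fun z hz => le_sSup hz⟩
    rw [Submodule.disjoint_def]
    intro x hx hxB
    rw [Submodule.mem_sSup_of_directed ⟨E0, hE0⟩ hchain.directedOn] at hx
    obtain ⟨E', hE', hxE'⟩ := hx
    exact Submodule.disjoint_def.1 (hc hE').2 x hxE' hxB) T ⟨le_rfl, hBT.symm⟩
  have hEB : Disjoint E B := hE.prop.2
  -- elements outside B
  have hout : ∀ q : Q, q ∉ B → ∃ s : S, ∃ b ∈ B, s • q + b ∈ T ∧ s • q + b ≠ 0 := by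
    intro q hq
    by_contra hcon
    push Not at hcon
    have hd : Disjoint (Submodule.span S {q} ⊔ B) T := by
      rw [Submodule.disjoint_def]
      intro x hx hxE
      obtain ⟨y, hy, m, hm, rfl⟩ := Submodule.mem_sup.1 hx
      obtain ⟨s, rfl⟩ := Submodule.mem_span_singleton.1 hy
      exact hcon s m hm hxE
    have := hB.le_of_ge hd le_sup_right
    exact hq (this (le_sup_left (α := Submodule S Q) (Submodule.mem_span_singleton_self q)))
  -- extend the inclusion of E along E → Q/B
  have hinj : Function.Injective (B.mkQ ∘ₗ E.subtype) := by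
    rw [← LinearMap.ker_eq_bot, LinearMap.ker_eq_bot']
    intro x hx
    have : (x : Q) ∈ B := by simpa using hx
    exact Subtype.ext (Submodule.disjoint_def.1 hEB _ x.2 this)
  obtain ⟨g, hg⟩ := hQ.out (B.mkQ ∘ₗ E.subtype) hinj E.subtype
  have hgE : ∀ x ∈ E, g (B.mkQ x) = x := fun x hx => by simpa using hg ⟨x, hx⟩
  have hgB : ∀ x ∈ B, g (B.mkQ x) = 0 := fun x hx => by
    have : B.mkQ x = 0 := by simpa using hx
    rw [this, map_zero]
  have hrange : ∀ q, g (B.mkQ q) ∈ E := by
    have hmem : LinearMap.range (g ∘ₗ B.mkQ) ∈ {E : Submodule S Q | T ≤ E ∧ Disjoint E B} := by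
      refine ⟨fun t ht => ⟨t, hgE t (hTE ht)⟩, ?_⟩
      rw [Submodule.disjoint_def]
      rintro _ ⟨q, rfl⟩ hz
      by_contra hne
      have hqB : q ∉ B := fun h => hne (hgB q h)
      obtain ⟨s, b, hb, h1, h2⟩ := hout q hqB
      have h3 := hgE _ (hTE h1)
      rw [map_add, map_smul, map_add, map_smul, hgB b hb, add_zero] at h3
      have h4 : s • q + b ∈ B := by
        rw [← h3]
        exact B.smul_mem s hz
      exact h2 (Submodule.disjoint_def.1 hBT _ h4 h1)
    have hle : E ≤ LinearMap.range (g ∘ₗ B.mkQ) := fun x hx => ⟨x, hgE x hx⟩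
    intro q
    exact hE.le_of_ge hmem hle ⟨q, rfl⟩
  have hker : ∀ q, g (B.mkQ q) = 0 → q ∈ B := by
    intro q hq0
    by_contra hqB
    obtain ⟨s, b, hb, h1, h2⟩ := hout q hqB
    have h3 := hgE _ (hTE h1)
    rw [map_add, map_smul, map_add, map_smul, hgB b hb, add_zero, hq0, smul_zero] at h3
    exact h2 h3.symm
  refine ⟨E, B, hTE, ⟨hEB, ?_⟩, ?_⟩
  · rw [codisjoint_iff, eq_top_iff]
    intro q _
    rw [Submodule.mem_sup]
    refine ⟨_, hrange q, q - g (B.mkQ q), hker _ ?_, add_sub_cancel _ _⟩
    rw [map_sub, map_sub, hgE _ (hrange q), sub_self]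
  · intro C hCE hCT
    have hd : Disjoint (C ⊔ B) T := by
      rw [Submodule.disjoint_def]
      intro x hx hxT
      obtain ⟨c, hc, b, hb, rfl⟩ := Submodule.mem_sup.1 hx
      have hbE : b ∈ E := by
        have := E.sub_mem (hTE hxT) (hCE hc)
        rwa [add_sub_cancel_left] at this
      have hb0 : b = 0 := Submodule.disjoint_def.1 hEB b hbE hb
      rw [hb0, add_zero] at hxT ⊢
      exact Submodule.disjoint_def.1 hCT c hc hxT
    have h1 := hB.le_of_ge hd le_sup_right
    rw [eq_bot_iff]
    intro c hc
    exact Submodule.disjoint_def.1 hEB c (hCE hc) (h1 (le_sup_left (α := Submodule S Q) hc))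

/-- An indecomposable injective module is uniform. -/
theorem uniform_of_injective {S : Type} [Ring S] {N : Type} [AddCommGroup N] [Module S N]
    (hN : Module.Injective S N) (hi : IsIndecomposable S N) (x y : N) (hx : x ≠ 0) (hy : y ≠ 0) :
    ∃ a b : S, a • x = b • y ∧ a • x ≠ 0 := by
  obtain ⟨E, B, hTE, hEB, hess⟩ := exists_summand hN (Submodule.span S {x})
  have hxE : x ∈ E := hTE (Submodule.mem_span_singleton_self x)
  rcases hi.2 E B hEB with h | h
  · rw [h] at hxE
    exact absurd ((Submodule.mem_bot S).1 hxE) hx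
  · have hE : E = ⊤ := by
      have := hEB.codisjoint
      rw [h, codisjoint_iff, sup_bot_eq] at this
      exact this
    by_contra hcon
    push Not at hcon
    have h1 := hess (Submodule.span S {y}) (by rw [hE]; exact le_top) (by
      rw [Submodule.disjoint_def]
      intro z hz hz'
      obtain ⟨b, rfl⟩ := Submodule.mem_span_singleton.1 hz
      obtain ⟨a, ha⟩ := Submodule.mem_span_singleton.1 hz'
      rw [← ha]
      exact hcon a b ha)
    exact hy (Submodule.span_singleton_eq_bot.1 h1)

/-- Indecomposable injective modules are determined by the annihilator of a nonzero element. -/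
theorem iso_of_ann {S : Type} [Ring S] {N N' : Type} [AddCommGroup N] [Module S N]
    [AddCommGroup N'] [Module S N'] (hN : Module.Injective S N) (hN' : Module.Injective S N')
    (hi : IsIndecomposable S N) (hi' : IsIndecomposable S N') (x : N) (x' : N') (hx : x ≠ 0)
    (h : ∀ s : S, s • x = 0 ↔ s • x' = 0) : Nonempty (N ≃ₗ[S] N') := by
  let f0 : S →ₗ[S] N := LinearMap.toSpanSingleton S N x
  let g0 : S →ₗ[S] N' := LinearMap.toSpanSingleton S N' x'
  have hf0 : ∀ s, f0 s = s • x := fun s => rfl
  have hg0 : ∀ s, g0 s = s • x' := fun s => rfl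
  have hle : LinearMap.ker f0 ≤ LinearMap.ker g0 := fun s hs => (h s).1 hs
  let f : (S ⧸ LinearMap.ker f0) →ₗ[S] N := (LinearMap.ker f0).liftQ f0 le_rfl
  let g : (S ⧸ LinearMap.ker f0) →ₗ[S] N' := (LinearMap.ker f0).liftQ g0 hle
  have hf : Function.Injective f := by
    rw [← LinearMap.ker_eq_bot]
    exact Submodule.ker_liftQ_eq_bot _ _ _ le_rfl
  obtain ⟨u, hu⟩ := hN'.out f hf g
  have hux : ∀ s : S, u (s • x) = s • x' := by
    intro s
    have := hu (Submodule.Quotient.mk s)
    exact this
  have huinj : Function.Injective u := by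
    rw [← LinearMap.ker_eq_bot, LinearMap.ker_eq_bot']
    intro y hy
    by_contra hy0
    obtain ⟨a, b, hab, hne⟩ := uniform_of_injective hN hi x y hx hy0
    have h1 := hux a
    rw [hab, map_smul, hy, smul_zero] at h1
    exact hne ((h a).2 h1.symm)
  obtain ⟨r, hr⟩ := hN.out u huinj LinearMap.id
  have hcompl : IsCompl (LinearMap.range u) (LinearMap.ker r) := by
    constructor
    · rw [Submodule.disjoint_def]
      rintro _ ⟨y, rfl⟩ hy
      have h1 : r (u y) = 0 := hy
      rw [hr y] at h1
      have : y = 0 := h1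
      rw [this, map_zero]
    · rw [codisjoint_iff, eq_top_iff]
      intro z _
      rw [Submodule.mem_sup]
      refine ⟨u (r z), ⟨_, rfl⟩, z - u (r z), ?_, add_sub_cancel _ _⟩
      rw [LinearMap.mem_ker, map_sub, hr (r z)]
      exact sub_self _
  rcases hi'.2 _ _ hcompl with h1 | h1
  · exfalso
    have : u x ∈ LinearMap.range u := ⟨x, rfl⟩
    rw [h1, Submodule.mem_bot] at this
    exact hx (huinj (by rw [this, map_zero]))
  · refine ⟨LinearEquiv.ofBijective u ⟨huinj, fun z => ?_⟩⟩
    have h2 := hcompl.codisjoint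
    rw [h1, codisjoint_iff, sup_bot_eq] at h2
    have : z ∈ LinearMap.range u := by rw [h2]; trivial
    exact this

/-- A uniform cyclic module `S/I` is contained in an indecomposable injective module. -/
theorem exists_hull {S : Type} [Ring S] (I : Submodule S S) (hI : (1 : S) ∉ I)
    (hun : ∀ a b : S, a ∉ I → b ∉ I → ∃ s t : S, s * a - t * b ∈ I ∧ s * a ∉ I) :
    ∃ (N : IndecPureInj S), Module.Injective S N.carrier ∧ ∃ x : N.carrier,
      ∀ s : S, s • x = 0 ↔ s ∈ I := by
  obtain ⟨Q, _, _, hQ, j, hj⟩ := exists_injective S (S ⧸ I)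
  obtain ⟨E, B, hTE, hEB, hess⟩ := exists_summand hQ (LinearMap.range j)
  let ρ : Q →ₗ[S] E := Submodule.projectionOnto E B hEB
  have hρ : ∀ x : E, ρ x = x := fun x => Submodule.projectionOnto_apply_left hEB x
  have hE : Module.Injective S E := ⟨fun X Y _ _ _ _ f hf h => by
    obtain ⟨h', hh'⟩ := hQ.out f hf (E.subtype ∘ₗ h)
    refine ⟨ρ ∘ₗ h', fun x => ?_⟩
    rw [LinearMap.comp_apply, hh']
    exact hρ (h x)⟩
  set t0 : S ⧸ I := Submodule.Quotient.mk 1 with ht0
  have hmk : ∀ s : S, s • t0 = Submodule.Quotient.mk s := by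
    intro s
    rw [ht0, ← Submodule.Quotient.mk_smul, smul_eq_mul, mul_one]
  have hs0 : ∀ s : S, j (s • t0) = 0 ↔ s ∈ I := by
    intro s
    rw [hmk]
    constructor
    · intro h
      exact (Submodule.Quotient.mk_eq_zero I).1 (hj (by rw [h, map_zero]))
    · intro h
      rw [(Submodule.Quotient.mk_eq_zero I).2 h, map_zero]
  let x0 : E := ⟨j t0, hTE ⟨t0, rfl⟩⟩
  have hx0 : ∀ s : S, s • x0 = 0 ↔ s ∈ I := by
    intro s
    rw [← hs0 s, map_smul]
    constructor
    · intro h
      exact congrArg Subtype.val h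
    · intro h
      exact Subtype.ext h
  -- every nonzero element of E has a nonzero multiple in the image
  have hmul : ∀ y : E, y ≠ 0 → ∃ s a : S, s • y = a • x0 ∧ a ∉ I := by
    intro y hy
    by_contra hcon
    push Not at hcon
    have h1 := hess (Submodule.span S {(y : Q)})
      ((Submodule.span_singleton_le_iff_mem _ _).2 y.2) (by
        rw [Submodule.disjoint_def]
        intro z hz hz'
        obtain ⟨s, rfl⟩ := Submodule.mem_span_singleton.1 hz
        obtain ⟨t, ht⟩ := hz'
        obtain ⟨a, rfl⟩ := Submodule.Quotient.mk_surjective I t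
        rw [← hmk] at ht
        rw [← ht, hs0]
        exact hcon s a (Subtype.ext (by rw [Submodule.coe_smul, ← ht, map_smul]; rfl)))
    exact hy (Subtype.ext (Submodule.span_singleton_eq_bot.1 h1))
  refine ⟨⟨E, ?_, ?_⟩, hE, x0, hx0⟩
  · intro A B _ _ _ _ f hf g
    exact hE.out f hf.1 g
  · refine ⟨⟨x0, 0, fun h => hI ((hx0 1).1 (by rw [h, smul_zero]))⟩, fun A B' hAB => ?_⟩
    by_contra hcon
    rw [not_or] at hcon
    obtain ⟨x, hx, hxne⟩ := Submodule.exists_mem_ne_zero_of_ne_bot hcon.1
    obtain ⟨y, hy, hyne⟩ := Submodule.exists_mem_ne_zero_of_ne_bot hcon.2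
    obtain ⟨s, a, hsa, ha⟩ := hmul x hxne
    obtain ⟨t, b, htb, hb⟩ := hmul y hyne
    obtain ⟨p, q, hpq, hp⟩ := hun a b ha hb
    have h1 : (p * a) • x0 = (q * b) • x0 := by
      rw [← sub_eq_zero, ← sub_smul, hx0]
      exact hpq
    have h2 : (p * a) • x0 ∈ A := by
      rw [mul_smul, ← hsa]
      exact A.smul_mem _ (A.smul_mem _ hx)
    have h3 : (p * a) • x0 ∈ B' := by
      rw [h1, mul_smul, ← htb]
      exact B'.smul_mem _ (B'.smul_mem _ hy)
    exact hp ((hx0 _).1 (Submodule.disjoint_def.1 hAB.disjoint _ h2 h3))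

/-- Over a von Neumann regular ring pure-injective modules are injective. -/
theorem injective_of_pinj {S : Type} [Ring S] (hS : ∀ a : S, ∃ x : S, a * x * a = a)
    {N : Type} [AddCommGroup N] [Module S N] (hN : IsPureInjective S N) :
    Module.Injective S N :=
  ⟨fun X Y _ _ _ _ f hf g => hN X Y f (pure_of_regular hS f hf) g⟩

end Pool.Agent.H82.Zg
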