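import Pool.Agent.H82.Zg.Gen

set_option autoImplicit false

open MulOpposite Cardinal

namespace Pool.Agent.H82.Zg

/-- Over a von Neumann regular ring a point of the spectrum is determined by an annihilator. -/
theorem zg_injective {S : Type} [Ring S] (hS : ∀ a : S, ∃ x : S, a * x * a = a) :
    ∃ Ψ : LeftZg S → Set S, Function.Injective Ψ := by
  have hex : ∀ c : LeftZg S, ∃ (N : IndecPureInj S) (x : N.carrier), cls N = c ∧ x ≠ 0 := by
    intro c
    obtain ⟨N, hN⟩ := Quotient.exists_rep c
    obtain ⟨x, hx⟩ := @exists_ne _ N.indec.1 (0 : N.carrier)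
    exact ⟨N, x, hN, hx⟩
  choose N x hN hx using hex
  refine ⟨fun c => {s | s • x c = 0}, fun c d h => ?_⟩
  have hi : ∀ c, Module.Injective S (N c).carrier := fun c => injective_of_pinj hS (N c).pinj
  have hdata : ∀ s : S, s • x c = 0 ↔ s • x d = 0 := by
    intro s
    have := congrArg (fun A : Set S => s ∈ A) h
    exact iff_of_eq this
  rw [← hN c, ← hN d]
  apply Quotient.sound
  exact iso_of_ann (hi c) (hi d) (N c).indec (N d).indec (x c) (x d) (hx c) fun s => hdata s

variable {K X : Type} [Field K] [Zero X]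

/-- An elementary operator. -/
def elt (p : ℕ × List X × (List X → K)) : Module.End K (Fn K X) where
  toFun φ x := p.2.2 ((List.range p.1).map x) * φ (splice p.1 (seqOf p.2.1) x)
  map_add' φ ψ := by
    funext x
    simp only [Pi.add_apply, mul_add]
  map_smul' r φ := by
    funext x
    simp only [Pi.smul_apply, smul_eq_mul, RingHom.id_apply]
    ring

theorem elt_apply (p : ℕ × List X × (List X → K)) (φ : Fn K X) (x : Sq X) :
    elt p φ x = p.2.2 ((List.range p.1).map x) * φ (splice p.1 (seqOf p.2.1) x) := rfl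

theorem seqOf_range (n : ℕ) (x : Sq X) (i : ℕ) (h : i < n) :
    seqOf ((List.range n).map x) i = x i := by
  simp [seqOf, h]

theorem exists_list (T : Module.End K (Fn K X)) (hT : T ∈ B K X) :
    ∃ L : List (ℕ × List X × (List X → K)), T = (L.map elt).sum := by
  have hT' : T ∈ J 0 := hT
  induction hT' using AddSubgroup.closure_induction with
  | mem T h =>
    obtain ⟨m, _, ι, _, w, t, ht, hT⟩ := h
    refine ⟨(Finset.univ : Finset ι).toList.map fun i =>
      (m, (List.range m).map (w i), fun l => t i (seqOf l)), ?_⟩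
    rw [List.map_map, Finset.sum_map_toList]
    refine LinearMap.ext fun φ => funext fun x => ?_
    rw [hT, LinearMap.sum_apply, Finset.sum_apply]
    refine Finset.sum_congr rfl fun i _ => ?_
    simp only [Function.comp]
    rw [elt_apply]
    have e1 : t i (seqOf ((List.range m).map x)) = t i x :=
      ht i _ _ fun i' hi' => seqOf_range m x i' hi'
    have e2 : splice m (seqOf ((List.range m).map (w i))) x = splice m (w i) x := by
      funext l
      simp only [splice]
      split_ifs with h
      · exact seqOf_range m (w i) l h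
      · rfl
    simp only [e1, e2]
  | zero => exact ⟨[], rfl⟩
  | add x y hx hy h1 h2 =>
    obtain ⟨L, hL⟩ := h1 (J_le_B hx)
    obtain ⟨L', hL'⟩ := h2 (J_le_B hy)
    exact ⟨L ++ L', by rw [List.map_append, List.sum_append, ← hL, ← hL']⟩
  | neg x hx h1 =>
    obtain ⟨L, hL⟩ := h1 (J_le_B hx)
    refine ⟨L.map fun p => (p.1, p.2.1, fun l => - p.2.2 l), ?_⟩
    rw [hL]
    clear hL
    induction L with
    | nil => simp
    | cons p L ih =>
      rw [List.map_cons, List.sum_cons, List.map_cons, List.map_cons, List.sum_cons, ← ih, neg_add]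
      congr 1
      refine LinearMap.ext fun φ => funext fun x => ?_
      rw [LinearMap.neg_apply, Pi.neg_apply, elt_apply, elt_apply, neg_mul]

theorem card_field_pow [Infinite X] (hK : #K ≤ #X) : #K ^ #X = 2 ^ #X :=
  power_eq_two_power (aleph0_le_mk X) (by
    have : Nontrivial K := inferInstance
    exact two_le_iff.2 (exists_pair_ne K)) hK

theorem card_B [Infinite X] (hK : #K ≤ #X) : #(B K X) ≤ 2 ^ #X := by
  choose L hL using fun T : B K X => exists_list T.1 T.2
  have hinj : Function.Injective L := by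
    intro T Q h
    apply Subtype.ext
    rw [hL T, hL Q, h]
  have hX := aleph0_le_mk X
  have h1 : #(ℕ × List X × (List X → K)) = 2 ^ #X := by
    rw [mk_prod, lift_id, lift_id, mk_prod, lift_id, lift_id, mk_list_eq_mk, mk_nat]
    have h2 : #(List X → K) = 2 ^ #X := by
      rw [← power_def, mk_list_eq_mk, card_field_pow hK]
    rw [h2]
    have h3 : #X * 2 ^ #X = 2 ^ #X :=
      mul_eq_right (hX.trans (cantor _).le) (cantor _).le (by
        intro h0; rw [h0] at hX; exact absurd hX (not_le.2 aleph0_pos))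
    rw [h3]
    exact mul_eq_right (hX.trans (cantor _).le) (hX.trans (cantor _).le) aleph0_ne_zero
  have h4 : Infinite (ℕ × List X × (List X → K)) := by
    rw [← aleph0_le_mk_iff, h1]
    exact hX.trans (cantor _).le
  calc #(B K X) ≤ #(List (ℕ × List X × (List X → K))) := mk_le_of_injective hinj
    _ = 2 ^ #X := by rw [mk_list_eq_mk, h1]

theorem card_B_eq [Infinite X] (hK : #K ≤ #X) : #(B K X) = 2 ^ #X := by
  refine le_antisymm (card_B hK) ?_
  have hpow : (2 : Cardinal) ^ #X = #(X → K) := by
    rw [← power_def, card_field_pow hK]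
  rw [hpow]
  have hdep : ∀ g : X → K, Dep 1 (fun x : Sq X => g (x 0)) := fun g x y hxy =>
    congrArg g (hxy 0 one_pos)
  refine mk_le_of_injective
    (f := fun g : X → K => (⟨Qop 1 fun x => g (x 0), Qop_mem_B (hdep g)⟩ : B K X)) ?_
  intro g g' h
  funext a
  have h1 := congrFun (LinearMap.congr_fun (congrArg Subtype.val h) (fun _ => 1)) (fun _ => a)
  change g a * 1 = g' a * 1 at h1
  rwa [mul_one, mul_one] at h1

theorem card_functionals [Infinite X] (hK : #K ≤ #X) :
    (2 : Cardinal) ^ ((2 : Cardinal) ^ #X) ≤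
      #{f : Module.Dual K (X → K) // f (fun _ => 1) = 1} := by
  have hX := aleph0_le_mk X
  have h1 : Module.rank K (X → K) = 2 ^ #X := by
    rw [rank_fun_infinite, ← power_def, card_field_pow hK]
  have hK2 : 2 ≤ #K := two_le_iff.2 (exists_pair_ne K)
  have h3 : (2 : Cardinal) ^ ((2 : Cardinal) ^ #X) ≤ #(Module.Dual K (X → K)) := by
    let b := Module.Free.chooseBasis K (X → K)
    have e : (Module.Free.ChooseBasisIndex K (X → K) → K) ≃ Module.Dual K (X → K) :=
      (b.constr K).toEquiv
    rw [← Cardinal.mk_congr e, Cardinal.mk_pi, Cardinal.prod_const]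
    have h4 : #(Module.Free.ChooseBasisIndex K (X → K)) = 2 ^ #X := by
      rw [← Module.Free.rank_eq_card_chooseBasisIndex, h1]
    rw [lift_id, lift_id, h4]
    exact power_le_power_right hK2
  let f₀ : Module.Dual K (X → K) := LinearMap.proj 0
  have hf₀ : f₀ (fun _ => 1) = 1 := rfl
  let Θ : Module.Dual K (X → K) → {f : Module.Dual K (X → K) // f (fun _ => 1) = 1} × K :=
    fun f => (⟨f + (1 - f fun _ => 1) • f₀, by
      rw [LinearMap.add_apply, LinearMap.smul_apply, hf₀, smul_eq_mul, mul_one]
      ring⟩, f fun _ => 1)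
  have hΘ : Function.Injective Θ := by
    intro f g h
    have h4 : f (fun _ => 1) = g (fun _ => 1) := congrArg Prod.snd h
    have h5 : f + (1 - f fun _ => 1) • f₀ = g + (1 - g fun _ => 1) • f₀ :=
      congrArg (fun p => (Prod.fst p).1) h
    rw [h4] at h5
    exact add_right_cancel h5
  have h6 := h3.trans (Cardinal.mk_le_of_injective hΘ)
  rw [Cardinal.mk_prod, Cardinal.lift_id, Cardinal.lift_id] at h6
  by_contra hcon
  have hinf : ℵ₀ ≤ (2 : Cardinal) ^ ((2 : Cardinal) ^ #X) :=
    hX.trans ((cantor _).le.trans (cantor _).le)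
  have h7 : #K < (2 : Cardinal) ^ ((2 : Cardinal) ^ #X) :=
    hK.trans_lt ((cantor _).trans (cantor _))
  exact absurd h6 (not_le.2 (mul_lt_of_lt hinf (not_le.1 hcon) h7))

theorem left_small [Infinite X] (hK : #K ≤ #X) :
    ∃ Ψ : LeftZg (B K X) → Set X, Function.Injective Ψ := by
  obtain ⟨Ψ, hΨ⟩ := left_injective (K := K) (X := X)
  have hX := aleph0_le_mk X
  have hX0 : #X ≠ 0 := by
    intro h0; rw [h0] at hX; exact absurd hX (not_le.2 aleph0_pos)
  have hK0 : #K ≠ 0 := mk_ne_zero K
  have h1 : #(K × List X) = #X := by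
    rw [mk_prod, lift_id, lift_id, mk_list_eq_mk]
    exact mul_eq_right hX hK hK0
  have h2 : Infinite (K × List X) := by
    rw [← aleph0_le_mk_iff, h1]
    exact hX
  have h3 : #(ℕ × List (K × List X)) = #X := by
    rw [mk_prod, lift_id, lift_id, mk_list_eq_mk, h1, mk_nat]
    exact mul_eq_right hX hX aleph0_ne_zero
  obtain ⟨e⟩ := Cardinal.eq.1 h3
  exact ⟨fun c => e '' (Ψ c), (Set.image_injective.2 e.injective).comp hΨ⟩

theorem right_exact [Infinite X] (hK : #K ≤ #X) :
    Nonempty (RightZg (B K X) ≃ Set (Set X)) := by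
  obtain ⟨Ψ, hΨ⟩ := zg_injective (S := (B K X)ᵐᵒᵖ) Bop_regular
  obtain ⟨Φ, hΦ⟩ := right_injective (K := K) (X := X)
  have h1 : #(Set (B K X)ᵐᵒᵖ) ≤ #(Set (Set X)) := by
    rw [mk_set, mk_set, mk_set]
    refine power_le_power_left two_ne_zero ?_
    rw [← Cardinal.mk_congr (MulOpposite.opEquiv : B K X ≃ (B K X)ᵐᵒᵖ)]
    exact card_B hK
  have h2 : #(Set (Set X)) ≤ #{f : Module.Dual K (X → K) // f (fun _ => 1) = 1} := by
    rw [mk_set, mk_set]
    exact card_functionals hK
  obtain ⟨i1⟩ := (Cardinal.le_def _ _).1 h1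
  obtain ⟨i2⟩ := (Cardinal.le_def _ _).1 h2
  exact Function.Embedding.antisymm ((⟨Ψ, hΨ⟩ : RightZg (B K X) ↪ _).trans i1)
    (i2.trans ⟨Φ, hΦ⟩)

/-- The ring is an algebra over the field. -/
@[reducible] noncomputable def algB : Algebra K (B K X) :=
  RingHom.toAlgebra'
    { toFun := fun r => ⟨algebraMap K (Module.End K (Fn K X)) r, by
        refine S_le_J (le_refl 0) ?_
        refine ⟨Unit, inferInstance, fun _ => 0, fun _ _ => r, fun _ _ _ _ => rfl, fun φ x => ?_⟩
        have : splice 0 0 x = x := by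
          funext i
          exact splice_ge (Nat.zero_le i) _ _
        simp [this, Module.algebraMap_end_apply]⟩
      map_one' := Subtype.ext (map_one _)
      map_mul' := fun a b => Subtype.ext (map_mul _ a b)
      map_zero' := Subtype.ext (map_zero _)
      map_add' := fun a b => Subtype.ext (map_add _ a b) }
    (fun r b => Subtype.ext (Algebra.commutes r b.1))

end Pool.Agent.H82.Zg
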