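import Pool.Agent.H82.Zg.Base

set_option autoImplicit false
set_option linter.unusedSectionVars false

open MulOpposite Cardinal

namespace Pool.Agent.H82.Zg

variable {K X : Type} [Field K] [Zero X]

/-! ### The ring -/

/-- Sequences of natural numbers. -/
abbrev Sq (X : Type) : Type := ℕ → X

/-- Functions on sequences. -/
abbrev Fn (K X : Type) : Type := Sq X → K

/-- The first `n` terms are taken from `w`, the others from `x`. -/
def splice (n : ℕ) (w x : Sq X) : Sq X := fun i => if i < n then w i else x i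

/-- `α` depends only on the first `n` terms. -/
def Dep (n : ℕ) (α : Fn K X) : Prop := ∀ x y : Sq X, (∀ i < n, x i = y i) → α x = α y

theorem Dep.mono {m n : ℕ} (h : m ≤ n) {α : Fn K X} (hα : Dep m α) : Dep n α :=
  fun x y hxy => hα x y fun i hi => hxy i (hi.trans_le h)

theorem splice_of_le {m n : ℕ} (h : m ≤ n) (u w x : Sq X) :
    splice n u (splice m w x) = splice n u x := by
  funext i
  simp only [splice]
  split_ifs with h1 h2
  · rfl
  · omega
  · rfl

theorem splice_of_ge {m n : ℕ} (h : n ≤ m) (u w x : Sq X) :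
    splice n u (splice m w x) = splice m (splice n u w) x := by
  funext i
  simp only [splice]
  split_ifs with h1 h2 h3
  · rfl
  · omega
  · rfl
  · rfl

theorem splice_lt {n i : ℕ} (h : i < n) (w x : Sq X) : splice n w x i = w i := if_pos h

theorem splice_ge {n i : ℕ} (h : n ≤ i) (w x : Sq X) : splice n w x i = x i := if_neg (by omega)

/-- The operators `φ ↦ (x ↦ ∑_i t_i(x) φ(splice n w_i x))`, where the `t_i` depend only on the first
`n` terms. -/
def IsS (n : ℕ) (T : Module.End K (Fn K X)) : Prop :=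
  ∃ (ι : Type) (_ : Fintype ι) (w : ι → Sq X) (t : ι → Fn K X), (∀ i, Dep n (t i)) ∧
    ∀ (φ : Fn K X) (x : Sq X), T φ x = ∑ i, t i x * φ (splice n (w i) x)

/-- The additive group of these operators. -/
def S (n : ℕ) : AddSubgroup (Module.End K (Fn K X)) where
  carrier := {T | IsS n T}
  zero_mem' := ⟨Empty, inferInstance, fun i => i.elim, fun i => i.elim, fun i => i.elim,
    fun φ x => by simp⟩
  add_mem' := by
    rintro T Q ⟨ι, _, w, t, ht, hT⟩ ⟨κ, _, w', t', ht', hQ⟩
    refine ⟨ι ⊕ κ, inferInstance, Sum.elim w w', Sum.elim t t', ?_, fun φ x => ?_⟩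
    · rintro (i | i)
      · exact ht i
      · exact ht' i
    · rw [LinearMap.add_apply, Pi.add_apply, hT, hQ, Fintype.sum_sum_type]
      rfl
  neg_mem' := by
    rintro T ⟨ι, _, w, t, ht, hT⟩
    refine ⟨ι, inferInstance, w, fun i => -t i, fun i x y h => ?_, fun φ x => ?_⟩
    · exact congrArg Neg.neg (ht i x y h)
    · rw [LinearMap.neg_apply, Pi.neg_apply, hT, ← Finset.sum_neg_distrib]
      exact Finset.sum_congr rfl fun i _ => (neg_mul _ _).symm

theorem mem_S {n : ℕ} {T : Module.End K (Fn K X)} : T ∈ S n ↔ IsS n T := Iff.rfl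

theorem mul_mem_S {m n : ℕ} {T Q : Module.End K (Fn K X)} (hT : T ∈ S m) (hQ : Q ∈ S n) :
    T * Q ∈ S (max m n) := by
  obtain ⟨ι, _, w, t, ht, hT⟩ := hT
  obtain ⟨κ, _, w', t', ht', hQ⟩ := hQ
  rcases le_total m n with h | h
  · rw [max_eq_right h]
    refine ⟨ι × κ, inferInstance, fun p => w' p.2,
      fun p x => t p.1 x * t' p.2 (splice m (w p.1) x), fun p x y hxy => ?_, fun φ x => ?_⟩
    · have h1 : t p.1 x = t p.1 y := ht p.1 x y fun i hi => hxy i (hi.trans_le h)
      have h2 : t' p.2 (splice m (w p.1) x) = t' p.2 (splice m (w p.1) y) :=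
        ht' p.2 _ _ fun i hi => by
          simp only [splice]
          rw [hxy i hi]
      simp only [h1, h2]
    · rw [Module.End.mul_apply, hT, Fintype.sum_prod_type]
      refine Finset.sum_congr rfl fun i _ => ?_
      rw [hQ, Finset.mul_sum]
      refine Finset.sum_congr rfl fun l _ => ?_
      rw [splice_of_le h, mul_assoc]
  · rw [max_eq_left h]
    refine ⟨ι × κ, inferInstance, fun p => splice n (w' p.2) (w p.1),
      fun p x => t p.1 x * t' p.2 (w p.1), fun p x y hxy => ?_, fun φ x => ?_⟩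
    · simp only [ht p.1 x y hxy]
    · rw [Module.End.mul_apply, hT, Fintype.sum_prod_type]
      refine Finset.sum_congr rfl fun i _ => ?_
      rw [hQ, Finset.mul_sum]
      refine Finset.sum_congr rfl fun l _ => ?_
      rw [splice_of_ge h, mul_assoc]
      congr 2
      exact ht' l _ _ fun i' hi' => splice_lt (hi'.trans_le h) _ _

theorem one_mem_S : (1 : Module.End K (Fn K X)) ∈ (S 0 : AddSubgroup (Module.End K (Fn K X))) :=
  ⟨Unit, inferInstance, fun _ => 0, fun _ _ => 1, fun _ _ _ _ => rfl, fun φ x => by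
    have : splice 0 0 x = x := by
      funext i
      exact splice_ge (Nat.zero_le i) _ _
    simp [this]⟩

/-- The sums of elements of the `S m` with `m ≥ n`. -/
def J (n : ℕ) : AddSubgroup (Module.End K (Fn K X)) :=
  AddSubgroup.closure {T | ∃ m, n ≤ m ∧ T ∈ S m}

/-- The sums of elements of the `S m` with `m ≤ n`. -/
def Lo (n : ℕ) : AddSubgroup (Module.End K (Fn K X)) :=
  AddSubgroup.closure {T | ∃ m, m ≤ n ∧ T ∈ S m}

theorem S_le_J {m n : ℕ} (h : n ≤ m) : (S m : AddSubgroup (Module.End K (Fn K X))) ≤ J n := fun _ hT =>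
  AddSubgroup.subset_closure ⟨m, h, hT⟩

theorem S_le_Lo {m n : ℕ} (h : m ≤ n) : (S m : AddSubgroup (Module.End K (Fn K X))) ≤ Lo n := fun _ hT =>
  AddSubgroup.subset_closure ⟨m, h, hT⟩

theorem J_anti {m n : ℕ} (h : n ≤ m) : (J m : AddSubgroup (Module.End K (Fn K X))) ≤ J n :=
  AddSubgroup.closure_mono (by
    rintro _ ⟨l, hl, hT⟩
    exact ⟨l, h.trans hl, hT⟩)

theorem Lo_mono {m n : ℕ} (h : m ≤ n) : (Lo m : AddSubgroup (Module.End K (Fn K X))) ≤ Lo n :=
  AddSubgroup.closure_mono (by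
    rintro _ ⟨l, hl, hT⟩
    exact ⟨l, hl.trans h, hT⟩)

/-- Bilinear induction for products. -/
theorem mul_mem_of {s t : Set (Module.End K (Fn K X))} {G : AddSubgroup (Module.End K (Fn K X))}
    (h : ∀ a ∈ s, ∀ b ∈ t, a * b ∈ G) {a b : Module.End K (Fn K X)} (ha : a ∈ AddSubgroup.closure s)
    (hb : b ∈ AddSubgroup.closure t) : a * b ∈ G := by
  induction ha using AddSubgroup.closure_induction with
  | mem a ha =>
    induction hb using AddSubgroup.closure_induction with
    | mem b hb => exact h a ha b hb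
    | zero => rw [mul_zero]; exact G.zero_mem
    | add x y _ _ hx hy => rw [mul_add]; exact G.add_mem hx hy
    | neg x _ hx =>
      have e : a * -x = -(a * x) := mul_neg a x
      rw [e]
      exact G.neg_mem hx
  | zero => rw [zero_mul]; exact G.zero_mem
  | add x y _ _ hx hy => rw [add_mul]; exact G.add_mem hx hy
  | neg x _ hx =>
    have e : -x * b = -(x * b) := neg_mul x b
    rw [e]
    exact G.neg_mem hx

theorem mul_mem_J_left {n : ℕ} {a b : Module.End K (Fn K X)} (ha : a ∈ J 0) (hb : b ∈ J n) :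
    a * b ∈ J n :=
  mul_mem_of (by
    rintro a ⟨m, _, ha⟩ b ⟨m', hm', hb⟩
    exact S_le_J (hm'.trans (le_max_right m m')) (mul_mem_S ha hb)) ha hb

theorem mul_mem_J_right {n : ℕ} {a b : Module.End K (Fn K X)} (ha : a ∈ J n) (hb : b ∈ J 0) :
    a * b ∈ J n :=
  mul_mem_of (by
    rintro a ⟨m, hm, ha⟩ b ⟨m', _, hb⟩
    exact S_le_J (hm.trans (le_max_left m m')) (mul_mem_S ha hb)) ha hb

theorem mul_mem_Lo {n : ℕ} {a b : Module.End K (Fn K X)} (ha : a ∈ Lo n) (hb : b ∈ Lo n) :
    a * b ∈ Lo n :=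
  mul_mem_of (by
    rintro a ⟨m, hm, ha⟩ b ⟨m', hm', hb⟩
    exact S_le_Lo (max_le hm hm') (mul_mem_S ha hb)) ha hb

theorem mul_mem_S_left {n : ℕ} {a b : Module.End K (Fn K X)} (ha : a ∈ Lo n) (hb : b ∈ S n) :
    a * b ∈ S n :=
  mul_mem_of (t := ((S n : AddSubgroup (Module.End K (Fn K X))) : Set _)) (by
    rintro a ⟨m, hm, ha⟩ b hb
    have := mul_mem_S ha hb
    rwa [max_eq_right hm] at this) ha (AddSubgroup.subset_closure hb)

theorem mul_mem_S_right {n : ℕ} {a b : Module.End K (Fn K X)} (ha : a ∈ S n) (hb : b ∈ Lo n) :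
    a * b ∈ S n :=
  mul_mem_of (s := ((S n : AddSubgroup (Module.End K (Fn K X))) : Set _)) (by
    rintro a ha b ⟨m, hm, hb⟩
    have := mul_mem_S ha hb
    rwa [max_eq_left hm] at this) (AddSubgroup.subset_closure ha) hb

/-- The ring: all sums of elements of the `S n`. -/
def B (K X : Type) [Field K] [Zero X] : Subring (Module.End K (Fn K X)) where
  carrier := ((J 0 : AddSubgroup (Module.End K (Fn K X))) : Set _)
  mul_mem' := fun ha hb => mul_mem_J_left ha hb
  one_mem' := S_le_J le_rfl one_mem_S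
  add_mem' := fun ha hb => AddSubgroup.add_mem _ ha hb
  zero_mem' := AddSubgroup.zero_mem _
  neg_mem' := fun ha => AddSubgroup.neg_mem _ ha

theorem mem_B {T : Module.End K (Fn K X)} : T ∈ (B K X) ↔ T ∈ J 0 := Iff.rfl

theorem Lo_le_B {n : ℕ} {T : Module.End K (Fn K X)} (hT : T ∈ Lo n) : T ∈ (B K X) := by
  rw [mem_B]
  refine (AddSubgroup.closure_le _).2 ?_ hT
  rintro T ⟨m, _, hT⟩
  exact S_le_J (Nat.zero_le m) hT

theorem J_le_B {n : ℕ} {T : Module.End K (Fn K X)} (hT : T ∈ J n) : T ∈ (B K X) :=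
  J_anti (Nat.zero_le n) hT

theorem exists_Lo {T : Module.End K (Fn K X)} (hT : T ∈ (B K X)) : ∃ n, T ∈ Lo n := by
  rw [mem_B] at hT
  induction hT using AddSubgroup.closure_induction with
  | mem a ha =>
    obtain ⟨m, _, ha⟩ := ha
    exact ⟨m, S_le_Lo le_rfl ha⟩
  | zero => exact ⟨0, (Lo 0).zero_mem⟩
  | add x y _ _ hx hy =>
    obtain ⟨n, hn⟩ := hx
    obtain ⟨m, hm⟩ := hy
    exact ⟨max n m, (Lo _).add_mem (Lo_mono (le_max_left _ _) hn) (Lo_mono (le_max_right _ _) hm)⟩
  | neg x _ hx =>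
    obtain ⟨n, hn⟩ := hx
    exact ⟨n, (Lo _).neg_mem hn⟩

/-- Every element is the sum of an element of `Lo n` and an element of `J (n+1)`. -/
theorem exists_decomp {T : Module.End K (Fn K X)} (hT : T ∈ (B K X)) (n : ℕ) :
    ∃ a ∈ Lo n, ∃ b ∈ J (n + 1), T = a + b := by
  rw [mem_B] at hT
  induction hT using AddSubgroup.closure_induction with
  | mem a ha =>
    obtain ⟨m, _, ha⟩ := ha
    rcases Nat.lt_or_ge n m with h | h
    · exact ⟨0, (Lo _).zero_mem, a, S_le_J h ha, (zero_add _).symm⟩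
    · exact ⟨a, S_le_Lo h ha, 0, (J _).zero_mem, (add_zero _).symm⟩
  | zero => exact ⟨0, (Lo _).zero_mem, 0, (J _).zero_mem, (add_zero _).symm⟩
  | add x y _ _ hx hy =>
    obtain ⟨a, ha, b, hb, rfl⟩ := hx
    obtain ⟨a', ha', b', hb', rfl⟩ := hy
    exact ⟨a + a', (Lo _).add_mem ha ha', b + b', (J _).add_mem hb hb', by abel⟩
  | neg x _ hx =>
    obtain ⟨a, ha, b, hb, rfl⟩ := hx
    exact ⟨-a, (Lo _).neg_mem ha, -b, (J _).neg_mem hb, by abel⟩

theorem Lo_succ {n : ℕ} {T : Module.End K (Fn K X)} (hT : T ∈ Lo (n + 1)) :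
    ∃ a ∈ Lo n, ∃ b ∈ S (n + 1), T = a + b := by
  induction hT using AddSubgroup.closure_induction with
  | mem a ha =>
    obtain ⟨m, hm, ha⟩ := ha
    rcases Nat.lt_or_ge n m with h | h
    · obtain rfl : m = n + 1 := le_antisymm hm h
      exact ⟨0, (Lo _).zero_mem, a, ha, (zero_add _).symm⟩
    · exact ⟨a, S_le_Lo h ha, 0, (S _).zero_mem, (add_zero _).symm⟩
  | zero => exact ⟨0, (Lo _).zero_mem, 0, (S _).zero_mem, (add_zero _).symm⟩
  | add x y _ _ hx hy =>
    obtain ⟨a, ha, b, hb, rfl⟩ := hx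
    obtain ⟨a', ha', b', hb', rfl⟩ := hy
    exact ⟨a + a', (Lo _).add_mem ha ha', b + b', (S _).add_mem hb hb', by abel⟩
  | neg x _ hx =>
    obtain ⟨a, ha, b, hb, rfl⟩ := hx
    exact ⟨-a, (Lo _).neg_mem ha, -b, (S _).neg_mem hb, by abel⟩

theorem Lo_zero {T : Module.End K (Fn K X)} (hT : T ∈ Lo 0) : T ∈ S 0 := by
  refine (AddSubgroup.closure_le (S 0)).2 ?_ hT
  rintro T ⟨m, hm, hT⟩
  obtain rfl : m = 0 := Nat.le_zero.1 hm
  exact hT

/-! ### The ring is von Neumann regular -/

/-- Normal form: the words `w_i` may be taken pairwise different (modulo `n`). -/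
theorem normal_form {n : ℕ} {T : Module.End K (Fn K X)} (hT : T ∈ S n) :
    ∃ (W : Finset (Sq X)) (t : Sq X → Fn K X), (∀ w ∈ W, splice n w 0 = w) ∧ (∀ w, Dep n (t w)) ∧
      ∀ (φ : Fn K X) (x : Sq X), T φ x = ∑ w ∈ W, t w x * φ (splice n w x) := by
  classical
  obtain ⟨ι, _, w, t, ht, hT⟩ := hT
  refine ⟨Finset.univ.image fun i => splice n (w i) 0,
    fun v x => ∑ i ∈ Finset.univ.filter (fun i => splice n (w i) 0 = v), t i x, ?_, ?_, ?_⟩
  · intro v hv
    obtain ⟨i, -, rfl⟩ := Finset.mem_image.1 hv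
    funext l
    simp only [splice]
    split_ifs <;> rfl
  · intro v x y hxy
    exact Finset.sum_congr rfl fun i _ => ht i x y hxy
  · intro φ x
    rw [hT]
    rw [← Finset.sum_fiberwise_of_maps_to (s := Finset.univ)
      (t := Finset.univ.image fun i => splice n (w i) 0) (g := fun i => splice n (w i) 0)
      (fun i _ => Finset.mem_image_of_mem _ (Finset.mem_univ i))]
    refine Finset.sum_congr rfl fun v _ => ?_
    rw [Finset.sum_mul]
    refine Finset.sum_congr rfl fun i hi => ?_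
    rw [← (Finset.mem_filter.1 hi).2]
    congr 2
    funext l
    simp only [splice]
    split_ifs <;> rfl

/-- A linear map has a quasi-inverse. -/
theorem exists_qinv {V W : Type} [AddCommGroup V] [Module K V] [AddCommGroup W] [Module K W]
    (f : V →ₗ[K] W) : ∃ g : W →ₗ[K] V, ∀ v, f (g (f v)) = f v := by
  obtain ⟨s, hs⟩ := f.rangeRestrict.exists_rightInverse_of_surjective f.range_rangeRestrict
  obtain ⟨π, hπ⟩ := (LinearMap.range f).subtype.exists_leftInverse_of_injective
    (Submodule.ker_subtype _)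
  refine ⟨s ∘ₗ π, fun v => ?_⟩
  have h1 : π (f v) = f.rangeRestrict v := LinearMap.congr_fun hπ (f.rangeRestrict v)
  have h2 : f.rangeRestrict (s (f.rangeRestrict v)) = f.rangeRestrict v :=
    LinearMap.congr_fun hs _
  change f (s (π (f v))) = f v
  rw [h1]
  exact congrArg Subtype.val h2

theorem S_regular {n : ℕ} {T : Module.End K (Fn K X)} (hT : T ∈ S n) :
    ∃ Q ∈ S n, T * Q * T = T := by
  classical
  obtain ⟨W, t, hW, ht, hT⟩ := normal_form hT
  -- the finite set of values
  let V := W → K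
  let τ : Sq X → V := fun x w => t w x
  obtain ⟨s, hs, hspan⟩ := (Submodule.fg_span_iff_fg_span_finset_subset (R := K)
    (Set.range τ)).1 (IsNoetherian.noetherian _)
  let ι := {v : V // v ∈ s}
  let p : ι → Sq X := fun v => (hs v.2).choose
  have hp : ∀ v : ι, τ (p v) = v.1 := fun v => (hs v.2).choose_spec
  let A : (ι → K) →ₗ[K] V := Fintype.linearCombination K (fun v : ι => v.1)
  obtain ⟨C, hC⟩ := exists_qinv A
  have hA : ∀ x, A (C (τ x)) = τ x := by
    intro x
    have h0 : τ x ∈ LinearMap.range A := by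
      have h1 : τ x ∈ Submodule.span K (s : Set V) := by
        rw [← hspan]
        exact Submodule.subset_span ⟨x, rfl⟩
      rw [Fintype.range_linearCombination]
      refine Submodule.span_mono (fun v hv => ?_) h1
      exact ⟨⟨v, hv⟩, rfl⟩
    obtain ⟨y, hy⟩ := h0
    rw [← hy, hC]
  let r : ι → Fn K X := fun v x => ∑ w : W, if (∀ i < n, x i = w.1 i) then C (Pi.single w 1) v else 0
  have hr : ∀ v, Dep n (r v) := by
    intro v x y hxy
    refine Finset.sum_congr rfl fun w _ => ?_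
    have : (∀ i < n, x i = w.1 i) ↔ (∀ i < n, y i = w.1 i) :=
      ⟨fun h i hi => (hxy i hi).symm.trans (h i hi), fun h i hi => (hxy i hi).trans (h i hi)⟩
    simp only [this]
  have hrw : ∀ (v : ι) (w : W) (x : Sq X), r v (splice n w.1 x) = C (Pi.single w 1) v := by
    intro v w x
    change (∑ w' : W, if (∀ i < n, splice n w.1 x i = w'.1 i) then C (Pi.single w' 1) v else 0) = _
    rw [Finset.sum_eq_single w]
    · rw [if_pos fun i hi => splice_lt hi _ _]
    · intro w' _ hne
      rw [if_neg]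
      intro h
      apply hne
      apply Subtype.ext
      rw [← hW w'.1 w'.2, ← hW w.1 w.2]
      funext i
      simp only [splice]
      split_ifs with hi
      · rw [← h i hi, splice_lt hi]
      · rfl
    · intro h
      exact absurd (Finset.mem_univ _) h
  let Q : Module.End K (Fn K X) :=
    { toFun := fun φ x => ∑ v, r v x * φ (splice n (p v) x)
      map_add' := by
        intro φ ψ
        funext x
        simp only [Pi.add_apply, mul_add, Finset.sum_add_distrib]
      map_smul' := by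
        intro c φ
        funext x
        simp only [Pi.smul_apply, smul_eq_mul, RingHom.id_apply, Finset.mul_sum]
        exact Finset.sum_congr rfl fun v _ => by ring }
  have hQ : ∀ φ x, Q φ x = ∑ v, r v x * φ (splice n (p v) x) := fun _ _ => rfl
  refine ⟨Q, ⟨ι, inferInstance, p, r, hr, hQ⟩, ?_⟩
  refine LinearMap.ext fun φ => funext fun x => ?_
  rw [Module.End.mul_apply, Module.End.mul_apply]
  have hT' : ∀ φ x, T φ x = ∑ w : W, τ x w * φ (splice n w.1 x) := by
    intro φ x
    rw [hT, ← Finset.sum_coe_sort]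
  have h1 : ∀ w : W, Q (T φ) (splice n w.1 x) =
      ∑ v, C (Pi.single w 1) v * ∑ w' : W, v.1 w' * φ (splice n w'.1 x) := by
    intro w
    rw [hQ]
    refine Finset.sum_congr rfl fun v _ => ?_
    rw [hrw, splice_of_le le_rfl, hT']
    congr 1
    refine Finset.sum_congr rfl fun w' _ => ?_
    rw [splice_of_le le_rfl]
    congr 1
    rw [← hp v]
    exact ht w'.1 _ _ fun i hi => splice_lt hi _ _
  rw [hT', hT']
  simp only [h1]
  -- both sides are the value of a linear functional at `A (C (τ x))` and `τ x`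
  let ev : V →ₗ[K] K := Fintype.linearCombination K (fun w : W => φ (splice n w.1 x))
  have hev : ∀ y : V, ev y = ∑ w' : W, y w' * φ (splice n w'.1 x) := fun y => by
    rw [Fintype.linearCombination_apply]
    rfl
  have h3 : ∀ w : W, ∑ v, C (Pi.single w 1) v * ∑ w' : W, v.1 w' * φ (splice n w'.1 x) =
      ev (A (C (Pi.single w 1))) := by
    intro w
    have e1 : A (C (Pi.single w 1)) = ∑ v : ι, C (Pi.single w 1) v • v.1 :=
      Fintype.linearCombination_apply _ _ _
    rw [e1, map_sum]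
    refine Finset.sum_congr rfl fun v _ => ?_
    rw [map_smul, hev, smul_eq_mul]
  simp only [h3]
  have h4 : ∑ w : W, τ x w * ev (A (C (Pi.single w 1))) = ev (A (C (τ x))) := by
    have : τ x = ∑ w : W, τ x w • (Pi.single w (1 : K) : V) := by
      funext w'
      rw [Finset.sum_apply, Finset.sum_eq_single w']
      · simp
      · intro w _ hne
        simp [hne.symm]
      · intro h
        exact absurd (Finset.mem_univ _) h
    conv_rhs => rw [this]
    simp only [map_sum, map_smul, smul_eq_mul]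
  rw [h4, hA, hev]

theorem ring_id {R : Type} [Ring R] (T q z : R) :
    T * (q + (1 - q * T) * z * (1 - T * q)) * T =
      T * q * T + (T - T * q * T) * z * (T - T * q * T) := by
  noncomm_ring

theorem Lo_regular (n : ℕ) : ∀ T ∈ (Lo n : AddSubgroup (Module.End K (Fn K X))), ∃ Q ∈ (Lo n : AddSubgroup (Module.End K (Fn K X))), T * Q * T = T := by
  induction n with
  | zero =>
    intro T hT
    obtain ⟨Q, hQ, h⟩ := S_regular (Lo_zero hT)
    exact ⟨Q, S_le_Lo le_rfl hQ, h⟩
  | succ n ih =>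
    intro T hT
    obtain ⟨a, ha, b, hb, rfl⟩ := Lo_succ hT
    obtain ⟨q, hq, hqa⟩ := ih a ha
    have ha' : a ∈ Lo (n + 1) := Lo_mono n.le_succ ha
    have hq' : q ∈ Lo (n + 1) := Lo_mono n.le_succ hq
    have hb' : b ∈ Lo (n + 1) := S_le_Lo le_rfl hb
    have hu : (a + b) - (a + b) * q * (a + b) ∈ S (n + 1) := by
      have : (a + b) - (a + b) * q * (a + b) =
          b - (a * q * b + b * (q * a) + b * (q * b)) := by
        have h1 : (a + b) * q * (a + b) = a * q * a + (a * q * b + b * (q * a) + b * (q * b)) := by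
          noncomm_ring
        rw [h1, hqa]
        abel
      rw [this]
      exact (S _).sub_mem hb ((S _).add_mem ((S _).add_mem
        (mul_mem_S_left (mul_mem_Lo ha' hq') hb) (mul_mem_S_right hb (mul_mem_Lo hq' ha')))
        (mul_mem_S_right hb (mul_mem_Lo hq' hb')))
    obtain ⟨z, hz, hzu⟩ := S_regular hu
    have hz' : z ∈ Lo (n + 1) := S_le_Lo le_rfl hz
    have hT' : a + b ∈ Lo (n + 1) := hT
    generalize hTdef : a + b = T at *
    have h1 : (1 : Module.End K (Fn K X)) ∈ Lo (n + 1) := S_le_Lo (Nat.zero_le _) one_mem_S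
    refine ⟨q + (1 - q * T) * z * (1 - T * q), (Lo _).add_mem hq'
      (mul_mem_Lo (mul_mem_Lo ((Lo _).sub_mem h1 (mul_mem_Lo hq' hT')) hz')
        ((Lo _).sub_mem h1 (mul_mem_Lo hT' hq'))), ?_⟩
    rw [ring_id, hzu]
    abel

theorem B_regular (a : (B K X)) : ∃ x : (B K X), a * x * a = a := by
  obtain ⟨a, ha⟩ := a
  obtain ⟨n, hn⟩ := exists_Lo ha
  obtain ⟨q, hq, h⟩ := Lo_regular n a hn
  exact ⟨⟨q, Lo_le_B hq⟩, Subtype.ext h⟩

theorem Bop_regular (a : (B K X)ᵐᵒᵖ) : ∃ x : (B K X)ᵐᵒᵖ, a * x * a = a := by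
  obtain ⟨x, hx⟩ := B_regular a.unop
  refine ⟨op x, ?_⟩
  apply MulOpposite.unop_injective
  rw [unop_mul, unop_mul, unop_op, ← mul_assoc, hx]

/-! ### Left modules: a countable set of operators suffices -/

/-- The operators `φ ↦ (x ↦ ∑_i t_i φ(splice n w_i x))` with constants `t_i`. -/
def IsC (n : ℕ) (T : Module.End K (Fn K X)) : Prop :=
  ∃ (ι : Type) (_ : Fintype ι) (w : ι → Sq X) (t : ι → K), ∀ (φ : Fn K X) (x : Sq X),
    T φ x = ∑ i, t i * φ (splice n (w i) x)

theorem IsC.mem_S {n : ℕ} {T : Module.End K (Fn K X)} (hT : IsC n T) : T ∈ S n := by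
  obtain ⟨ι, _, w, t, hT⟩ := hT
  exact ⟨ι, inferInstance, w, fun i _ => t i, fun _ _ _ _ => rfl, fun φ x => by simp [hT]⟩

theorem IsC.mem_B {n : ℕ} {T : Module.End K (Fn K X)} (hT : IsC n T) : T ∈ B K X :=
  S_le_J (Nat.zero_le n) hT.mem_S

/-- These operators form an additive group. -/
def CG (n : ℕ) : AddSubgroup (Module.End K (Fn K X)) where
  carrier := {T | IsC n T}
  zero_mem' := ⟨Empty, inferInstance, fun i => i.elim, fun i => i.elim, fun φ x => by simp⟩
  add_mem' := by
    rintro T Q ⟨ι, _, w, t, hT⟩ ⟨κ, _, w', t', hQ⟩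
    refine ⟨ι ⊕ κ, inferInstance, Sum.elim w w', Sum.elim t t', fun φ x => ?_⟩
    rw [LinearMap.add_apply, Pi.add_apply, hT, hQ, Fintype.sum_sum_type]
    rfl
  neg_mem' := by
    rintro T ⟨ι, _, w, t, hT⟩
    refine ⟨ι, inferInstance, w, fun i => - t i, fun φ x => ?_⟩
    rw [LinearMap.neg_apply, Pi.neg_apply, hT, ← Finset.sum_neg_distrib]
    exact Finset.sum_congr rfl fun i _ => (neg_mul _ _).symm

theorem IsC.mul {n : ℕ} {c T : Module.End K (Fn K X)} (hc : IsC n c) (hT : T ∈ Lo n) :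
    IsC n (c * T) := by
  classical
  have key : c * T ∈ CG n := by
    refine mul_mem_of (s := {c | IsC n c}) ?_ (AddSubgroup.subset_closure hc) hT
    rintro c ⟨ι, _, w, a, hc⟩ T ⟨m, hm, κ, _, u, t, ht, hT⟩
    refine ⟨ι × κ, inferInstance, fun p => splice m (u p.2) (w p.1),
      fun p => a p.1 * t p.2 (w p.1), fun φ x => ?_⟩
    rw [Module.End.mul_apply, hc, Fintype.sum_prod_type]
    refine Finset.sum_congr rfl fun i _ => ?_
    rw [hT, Finset.mul_sum]
    refine Finset.sum_congr rfl fun l _ => ?_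
    have e1 : t l (splice n (w i) x) = t l (w i) :=
      ht l _ _ fun i' hi' => splice_lt (hi'.trans_le hm) _ _
    rw [e1, splice_of_ge hm, mul_assoc]
  exact key

/-- The sequence of a finite word. -/
def seqOf (l : List X) : Sq X := fun i => l.getD i 0

/-- A family of operators. -/
def cop (n : ℕ) (L : List (K × List X)) : Module.End K (Fn K X) where
  toFun φ x := (L.map fun l => l.1 * φ (splice n (seqOf l.2) x)).sum
  map_add' φ ψ := by
    funext x
    induction L with
    | nil => simp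
    | cons l L ih =>
      simp only [List.map_cons, List.sum_cons, Pi.add_apply] at ih ⊢
      rw [ih]
      ring
  map_smul' r φ := by
    funext x
    induction L with
    | nil => simp
    | cons l L ih =>
      simp only [List.map_cons, List.sum_cons, Pi.smul_apply, smul_eq_mul, RingHom.id_apply]
        at ih ⊢
      rw [ih]
      ring

theorem cop_apply (n : ℕ) (L : List (K × List X)) (φ : Fn K X) (x : Sq X) :
    cop n L φ x = (L.map fun l => l.1 * φ (splice n (seqOf l.2) x)).sum := rfl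

theorem isC_cop (n : ℕ) (L : List (K × List X)) : IsC n (cop n L) := by
  refine ⟨Fin L.length, inferInstance, fun i => seqOf (L.get i).2, fun i => (L.get i).1,
    fun φ x => ?_⟩
  rw [cop_apply, ← Fin.sum_univ_fun_getElem]
  rfl

theorem IsC.eq_cop {n : ℕ} {c : Module.End K (Fn K X)} (hc : IsC n c) : ∃ L, c = cop n L := by
  obtain ⟨ι, _, w, t, hc⟩ := hc
  refine ⟨(Finset.univ : Finset ι).toList.map fun i => (t i, (List.range n).map (w i)), ?_⟩
  refine LinearMap.ext fun φ => funext fun x => ?_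
  rw [hc, cop_apply, List.map_map]
  have h1 : ∀ i, splice n (seqOf ((List.range n).map (w i))) x = splice n (w i) x := by
    intro i
    funext l
    simp only [splice]
    split_ifs with h
    · simp [seqOf, h]
    · rfl
  rw [← Finset.sum_map_toList]
  congr 1
  refine List.map_congr_left fun i _ => ?_
  simp only [Function.comp]
  rw [h1]

/-- Elements of `S m` factor through operators of the countable family of any level `n ≤ m`. -/
theorem factor_S {m n : ℕ} (h : n ≤ m) {N : Type} [AddCommGroup N] [Module (B K X) N] (z : N)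
    (hz : ∀ c (hc : IsC n c), (⟨c, hc.mem_B⟩ : (B K X)) • z = 0) (T : Module.End K (Fn K X)) (hT : T ∈ S m)
    (hTB : T ∈ (B K X)) : (⟨T, hTB⟩ : (B K X)) • z = 0 := by
  classical
  obtain ⟨ι, _, w, t, ht, hT⟩ := hT
  let c : ι → Module.End K (Fn K X) := fun i =>
    { toFun := fun φ x => φ (splice n (w i) x)
      map_add' := fun _ _ => rfl
      map_smul' := fun _ _ => rfl }
  have hc : ∀ i, IsC n (c i) := fun i => ⟨Unit, inferInstance, fun _ => w i, fun _ => 1,
    fun φ x => by simp [c]⟩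
  let q : ι → Module.End K (Fn K X) := fun i =>
    { toFun := fun φ x => t i x * φ (splice m (w i) x)
      map_add' := fun φ ψ => by
        funext x
        simp only [Pi.add_apply, mul_add]
      map_smul' := fun r φ => by
        funext x
        simp only [Pi.smul_apply, smul_eq_mul, RingHom.id_apply]
        ring }
  have hq : ∀ i, q i ∈ S m := fun i => ⟨Unit, inferInstance, fun _ => w i, fun _ => t i,
    fun _ => ht i, fun φ x => by simp [q]⟩
  have hqB : ∀ i, q i ∈ (B K X) := fun i => S_le_J (Nat.zero_le m) (hq i)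
  have hsum : (⟨T, hTB⟩ : (B K X)) = ∑ i, (⟨q i, hqB i⟩ : (B K X)) * ⟨c i, (hc i).mem_B⟩ := by
    apply Subtype.ext
    rw [AddSubmonoidClass.coe_finsetSum]
    refine LinearMap.ext fun φ => funext fun x => ?_
    change T φ x = _
    rw [hT, LinearMap.sum_apply, Finset.sum_apply]
    refine Finset.sum_congr rfl fun i _ => ?_
    change _ = t i x * φ (splice n (w i) (splice m (w i) x))
    rw [splice_of_ge h]
    congr 3
    funext l
    simp only [splice]
    split_ifs <;> rfl
  rw [hsum, Finset.sum_smul]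
  refine Finset.sum_eq_zero fun i _ => ?_
  rw [mul_smul, hz (c i) (hc i), smul_zero]

/-- `z` is killed by the operators of level `n`. -/
def Kills (K X : Type) [Field K] [Zero X] {N : Type} [AddCommGroup N] [Module (B K X) N] (n : ℕ) (z : N) : Prop :=
  ∀ c (hc : IsC n c), (⟨c, hc.mem_B⟩ : (B K X)) • z = 0

theorem Kills.smulJ {N : Type} [AddCommGroup N] [Module (B K X) N] {n : ℕ} {z : N} (hz : Kills K X n z)
    (T : (B K X)) (hT : (T : Module.End K (Fn K X)) ∈ J n) : T • z = 0 := by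
  have : ∀ T' : Module.End K (Fn K X), T' ∈ J n → ∀ h : T' ∈ (B K X), (⟨T', h⟩ : (B K X)) • z = 0 := by
    intro T' hT'
    induction hT' using AddSubgroup.closure_induction with
    | mem a ha =>
      intro h
      obtain ⟨m, hm, ha⟩ := ha
      exact factor_S hm z hz a ha h
    | zero =>
      intro h
      exact zero_smul (B K X) z
    | add x y hx hy hx' hy' =>
      intro h
      have hxB : x ∈ (B K X) := J_le_B hx
      have hyB : y ∈ (B K X) := J_le_B hy
      have : (⟨x + y, h⟩ : (B K X)) = ⟨x, hxB⟩ + ⟨y, hyB⟩ := rfl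
      rw [this, add_smul, hx' hxB, hy' hyB, add_zero]
    | neg x hx hx' =>
      intro h
      have hxB : x ∈ (B K X) := J_le_B hx
      have : (⟨-x, h⟩ : (B K X)) = -⟨x, hxB⟩ := rfl
      rw [this, neg_smul, hx' hxB, neg_zero]
  exact this T hT T.2

/-- In a uniform module, if one nonzero element is killed by level `n` then `J n` kills
everything. -/
theorem Kills.all {N : Type} [AddCommGroup N] [Module (B K X) N]
    (hu : ∀ x y : N, x ≠ 0 → y ≠ 0 → ∃ a b : (B K X), a • x = b • y ∧ a • x ≠ 0)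
    {n : ℕ} {z : N} (hz : Kills K X n z) (hz0 : z ≠ 0) (T : (B K X))
    (hT : (T : Module.End K (Fn K X)) ∈ J n) (y : N) : T • y = 0 := by
  by_contra hne
  obtain ⟨a, b, hab, hne'⟩ := hu z (T • y) hz0 hne
  obtain ⟨q, hq⟩ := B_regular (b * T)
  have h1 : (b * T) • y = a • z := by rw [mul_smul, hab]
  have h2 : ((b * T * q * a : (B K X)) : Module.End K (Fn K X)) ∈ J n := by
    rw [Subring.coe_mul, Subring.coe_mul, Subring.coe_mul]
    exact mul_mem_J_right (mul_mem_J_right (mul_mem_J_left b.2 hT) q.2) a.2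
  have h3 := hz.smulJ _ h2
  apply hne'
  rw [← h1]
  conv_lhs => rw [← hq]
  rw [mul_smul _ (b * T), h1, ← mul_smul, h3]

/-- Over `(B K X)`, the annihilator of a nonzero element of a uniform module is determined by the
countable family of operators. -/
theorem ann_determined {N N' : Type} [AddCommGroup N] [Module (B K X) N] [AddCommGroup N'] [Module (B K X) N']
    (hu : ∀ x y : N, x ≠ 0 → y ≠ 0 → ∃ a b : (B K X), a • x = b • y ∧ a • x ≠ 0)
    (hu' : ∀ x y : N', x ≠ 0 → y ≠ 0 → ∃ a b : (B K X), a • x = b • y ∧ a • x ≠ 0)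
    (x : N) (x' : N') (hx : x ≠ 0)
    (h : ∀ n L, (⟨cop n L, (isC_cop n L).mem_B⟩ : (B K X)) • x = 0 ↔
      (⟨cop n L, (isC_cop n L).mem_B⟩ : (B K X)) • x' = 0) (T : (B K X)) (hT : T • x = 0) : T • x' = 0 := by
  have hC : ∀ n c (hc : IsC n c), (⟨c, hc.mem_B⟩ : (B K X)) • x = 0 ↔ (⟨c, hc.mem_B⟩ : (B K X)) • x' = 0 := by
    intro n c hc
    obtain ⟨L, rfl⟩ := hc.eq_cop
    exact h n L
  by_contra hne
  -- the key step at a level n
  have step : ∀ n : ℕ, ¬ Kills K X n (T • x') → (∀ Q : (B K X), (Q : Module.End K (Fn K X)) ∈ J (n + 1) →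
      Q • x = 0 ∧ Q • x' = 0) → False := by
    intro n hn hJ
    obtain ⟨a, ha, b, hb, hab⟩ := exists_decomp T.2 n
    have haB : a ∈ (B K X) := Lo_le_B ha
    have hbB : b ∈ (B K X) := J_le_B hb
    have hTab : T = ⟨a, haB⟩ + ⟨b, hbB⟩ := Subtype.ext hab
    have hb0 := hJ ⟨b, hbB⟩ hb
    have hax : (⟨a, haB⟩ : (B K X)) • x = 0 := by
      rw [hTab, add_smul, hb0.1, add_zero] at hT
      exact hT
    have hax' : T • x' = (⟨a, haB⟩ : (B K X)) • x' := by
      rw [hTab, add_smul, hb0.2, add_zero]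
    apply hn
    intro c hc
    have hca := hc.mul ha
    have e : (⟨c * a, hca.mem_B⟩ : (B K X)) = ⟨c, hc.mem_B⟩ * ⟨a, haB⟩ := rfl
    have h1 := (hC n _ hca).1 (by rw [e, mul_smul, hax, smul_zero])
    rw [e, mul_smul, ← hax'] at h1
    exact h1
  have h0 : ¬ Kills K X 0 (T • x') := by
    intro hk
    have h1 := hk.smulJ 1 (S_le_J le_rfl one_mem_S)
    rw [one_smul] at h1
    exact hne h1
  by_cases hex : ∃ m, Kills K X m (T • x')
  · classical
    have hm : Kills K X (Nat.find hex) (T • x') := Nat.find_spec hex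
    have hmin : ∀ k < Nat.find hex, ¬ Kills K X k (T • x') := fun k hk => Nat.find_min hex hk
    set m := Nat.find hex with hmdef
    rcases Nat.eq_zero_or_pos m with h' | h'
    · rw [h'] at hm
      exact h0 hm
    · obtain ⟨n, hn⟩ : ∃ n, m = n + 1 := ⟨m - 1, by omega⟩
      refine step n (hmin n (by omega)) fun Q hQ => ?_
      rw [hn] at hm
      have h2 := fun Q' hQ' y => hm.all hu' hne Q' hQ' y
      have h3 : Kills K X (n + 1) x := fun c hc =>
        (hC _ c hc).2 (h2 _ (S_le_J le_rfl hc.mem_S) x')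
      exact ⟨h3.all hu hx Q hQ x, h2 Q hQ x'⟩
  · push Not at hex
    obtain ⟨n, hn⟩ := exists_Lo T.2
    -- here the component in J (n+1) may be taken to be zero
    apply hex n
    intro c hc
    have hca := hc.mul hn
    have e : (⟨c * (T : Module.End K (Fn K X)), hca.mem_B⟩ : (B K X)) = ⟨c, hc.mem_B⟩ * T := rfl
    have h1 := (hC n _ hca).1 (by rw [e, mul_smul, hT, smul_zero])
    rw [e, mul_smul] at h1
    exact h1

/-! ### Right modules: the functionals -/

/-- `ψ` does not depend on the first `n` terms. -/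
def Tail (n : ℕ) (ψ : Fn K X) : Prop := ∀ x y : Sq X, (∀ i, n ≤ i → x i = y i) → ψ x = ψ y

/-- Integration of the `n`-th variable with respect to the functional `f`. -/
def P (f : Module.Dual K (X → K)) (n : ℕ) : Fn K X →ₗ[K] Fn K X where
  toFun φ x := f fun j => φ (Function.update x n j)
  map_add' φ ψ := by
    funext x
    exact map_add f _ _
  map_smul' r φ := by
    funext x
    exact map_smul f r _

theorem P_apply (f : Module.Dual K (X → K)) (n : ℕ) (φ : Fn K X) (x : Sq X) :
    P f n φ x = f fun j => φ (Function.update x n j) := rfl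

/-- Integration of the first `n` variables, the last one first. -/
def F (f : Module.Dual K (X → K)) : ℕ → (Fn K X →ₗ[K] K)
  | 0 => LinearMap.proj 0
  | n + 1 => F f n ∘ₗ P f n

theorem F_succ (f : Module.Dual K (X → K)) (n : ℕ) (φ : Fn K X) : F f (n + 1) φ = F f n (P f n φ) :=
  rfl

theorem P_dep {f : Module.Dual K (X → K)} (hf : f (fun _ => 1) = 1) {n : ℕ} {φ : Fn K X}
    (hφ : Dep n φ) : P f n φ = φ := by
  funext x
  rw [P_apply]
  have h1 : (fun j => φ (Function.update x n j)) = φ x • (fun _ : X => (1 : K)) := by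
    funext j
    rw [Pi.smul_apply, smul_eq_mul, mul_one]
    exact hφ _ _ fun i hi => Function.update_of_ne hi.ne _ _
  rw [h1, map_smul, hf, smul_eq_mul, mul_one]

theorem F_dep {f : Module.Dual K (X → K)} (hf : f (fun _ => 1) = 1) {n m : ℕ} (h : n ≤ m) {φ : Fn K X}
    (hφ : Dep n φ) : F f m φ = F f n φ := by
  induction m, h using Nat.le_induction with
  | base => rfl
  | succ m hm ih => rw [F_succ, P_dep hf (hφ.mono hm), ih]

theorem dep_one (n : ℕ) : Dep n (fun _ => 1 : Fn K X) := fun _ _ _ => rfl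

theorem F_one {f : Module.Dual K (X → K)} (hf : f (fun _ => 1) = 1) (n : ℕ) :
    F f n (fun _ => 1) = 1 :=
  F_dep hf (Nat.zero_le n) (dep_one 0)

theorem P_mul (f : Module.Dual K (X → K)) {n m : ℕ} (h : n ≤ m) {α : Fn K X} (hα : Dep n α) (ψ : Fn K X) :
    P f m (α * ψ) = α * P f m ψ := by
  funext x
  rw [Pi.mul_apply, P_apply, P_apply]
  have h1 : (fun j => (α * ψ) (Function.update x m j)) =
      α x • fun j => ψ (Function.update x m j) := by
    funext j
    rw [Pi.smul_apply, smul_eq_mul, Pi.mul_apply]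
    congr 1
    exact hα _ _ fun i hi => Function.update_of_ne (hi.trans_le h).ne _ _
  rw [h1, map_smul, smul_eq_mul]

theorem P_tail (f : Module.Dual K (X → K)) {n : ℕ} (m : ℕ) {ψ : Fn K X} (hψ : Tail n ψ) :
    Tail n (P f m ψ) := by
  intro x y hxy
  rw [P_apply, P_apply]
  congr 1
  funext j
  refine hψ _ _ fun i hi => ?_
  rcases eq_or_ne i m with rfl | hne
  · rw [Function.update_self, Function.update_self]
  · rw [Function.update_of_ne hne, Function.update_of_ne hne, hxy i hi]

theorem P_dep_succ (f : Module.Dual K (X → K)) {m : ℕ} {φ : Fn K X} (hφ : Dep (m + 1) φ) :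
    Dep m (P f m φ) := by
  intro x y hxy
  rw [P_apply, P_apply]
  congr 1
  funext j
  refine hφ _ _ fun i hi => ?_
  rcases eq_or_ne i m with rfl | hne
  · rw [Function.update_self, Function.update_self]
  · rw [Function.update_of_ne hne, Function.update_of_ne hne, hxy i (by omega)]

theorem F_mul {f : Module.Dual K (X → K)} (hf : f (fun _ => 1) = 1) {n m : ℕ} (h : n ≤ m)
    {α : Fn K X} (hα : Dep n α) {ψ : Fn K X} (hψ : Tail n ψ) (hψ' : Dep m ψ) :
    F f m (α * ψ) = F f n α * F f m ψ := by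
  induction m, h using Nat.le_induction generalizing ψ with
  | base =>
    have h1 : ψ = ψ 0 • fun _ : Sq X => (1 : K) := by
      funext x
      rw [Pi.smul_apply, smul_eq_mul, mul_one]
      rw [hψ' x (splice n x 0) fun i hi => (splice_lt hi _ _).symm]
      exact hψ _ _ fun i hi => splice_ge hi _ _
    have h2 : α * ψ = ψ 0 • α := by
      funext x
      rw [Pi.mul_apply, Pi.smul_apply, smul_eq_mul, mul_comm]
      congr 1
      rw [h1]
      simp
    rw [h2, map_smul]
    conv_rhs => rw [h1, map_smul, F_one hf]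
    simp only [smul_eq_mul]
    ring
  | succ m hm ih =>
    rw [F_succ, P_mul f hm hα, F_succ, ih (P_tail f m hψ) (P_dep_succ f hψ')]

theorem Lo_dep {n m : ℕ} {T : Module.End K (Fn K X)} (hT : T ∈ Lo n) {α : Fn K X} (hα : Dep m α) :
    Dep (max m n) (T α) := by
  induction hT using AddSubgroup.closure_induction with
  | mem T hT =>
    obtain ⟨l, hl, ι, _, w, t, ht, hT⟩ := hT
    intro x y hxy
    rw [hT, hT]
    refine Finset.sum_congr rfl fun i _ => ?_
    rw [ht i x y fun i' hi' => hxy i' (hi'.trans_le (hl.trans (le_max_right _ _)))]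
    congr 1
    refine hα _ _ fun i' hi' => ?_
    simp only [splice]
    split_ifs
    · rfl
    · exact hxy i' (hi'.trans_le (le_max_left _ _))
  | zero => exact fun _ _ _ => rfl
  | add S T _ _ h1 h2 =>
    intro x y hxy
    rw [LinearMap.add_apply, Pi.add_apply, Pi.add_apply, h1 x y hxy, h2 x y hxy]
  | neg T _ h1 =>
    intro x y hxy
    rw [LinearMap.neg_apply, Pi.neg_apply, Pi.neg_apply, h1 x y hxy]

theorem Lo_mul_tail {n : ℕ} {T : Module.End K (Fn K X)} (hT : T ∈ Lo n) {ψ : Fn K X} (hψ : Tail n ψ)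
    (α : Fn K X) : T (α * ψ) = T α * ψ := by
  induction hT using AddSubgroup.closure_induction with
  | mem T hT =>
    obtain ⟨l, hl, ι, _, w, t, ht, hT⟩ := hT
    funext x
    rw [Pi.mul_apply, hT, hT, Finset.sum_mul]
    refine Finset.sum_congr rfl fun i _ => ?_
    rw [Pi.mul_apply, mul_assoc]
    congr 2
    exact hψ _ _ fun i' hi' => splice_ge (hl.trans hi') _ _
  | zero => exact (zero_mul ψ).symm
  | add S T _ _ h1 h2 =>
    rw [LinearMap.add_apply, h1, h2, LinearMap.add_apply, add_mul]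
  | neg T _ h1 =>
    rw [LinearMap.neg_apply, h1, LinearMap.neg_apply, neg_mul]

/-- The operator `φ ↦ (x ↦ α(x) φ(splice n 0 x))`. -/
def Qop (n : ℕ) (α : Fn K X) : Module.End K (Fn K X) where
  toFun φ x := α x * φ (splice n 0 x)
  map_add' φ ψ := by
    funext x
    simp only [Pi.add_apply, mul_add]
  map_smul' r φ := by
    funext x
    simp only [Pi.smul_apply, smul_eq_mul, RingHom.id_apply]
    ring

theorem Qop_mem {n : ℕ} {α : Fn K X} (hα : Dep n α) : Qop n α ∈ S n :=
  ⟨Unit, inferInstance, fun _ => 0, fun _ => α, fun _ => hα, fun φ x => by simp [Qop]⟩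

theorem Qop_mem_B {n : ℕ} {α : Fn K X} (hα : Dep n α) : Qop n α ∈ (B K X) :=
  S_le_J (Nat.zero_le n) (Qop_mem hα)

theorem Qop_tail (n : ℕ) (φ : Fn K X) : Tail n (fun x => φ (splice n 0 x)) := by
  intro x y hxy
  have : splice n 0 x = splice n 0 y := by
    funext i
    rcases Nat.lt_or_ge i n with h | h
    · rw [splice_lt h, splice_lt h]
    · rw [splice_ge h, splice_ge h, hxy i h]
  change φ (splice n 0 x) = φ (splice n 0 y)
  rw [this]

theorem Qop_dep (n : ℕ) {m : ℕ} {φ : Fn K X} (hφ : Dep m φ) : Dep m (fun x => φ (splice n 0 x)) := by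
  intro x y hxy
  refine hφ _ _ fun i hi => ?_
  simp only [splice]
  split_ifs
  · rfl
  · exact hxy i hi

/-- The basic computation. -/
theorem F_Qop {f : Module.Dual K (X → K)} (hf : f (fun _ => 1) = 1) {n m l : ℕ} (h : n ≤ l)
    (h' : m ≤ l) {T : Module.End K (Fn K X)} (hT : T ∈ Lo n) {α : Fn K X} (hα : Dep n α) {φ : Fn K X}
    (hφ : Dep m φ) :
    F f l (T (Qop n α φ)) = F f n (T α) * F f l (fun x => φ (splice n 0 x)) := by
  have h1 : Qop n α φ = α * fun x => φ (splice n 0 x) := rfl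
  rw [h1, Lo_mul_tail hT (Qop_tail n φ)]
  have h2 := Lo_dep hT hα
  rw [max_self] at h2
  exact F_mul hf h h2 (Qop_tail n φ) ((Qop_dep n hφ).mono h')

/-- The annihilator of the functional: a right ideal of `(B K X)`, that is, a left ideal of the opposite
ring. -/
def I (f : Module.Dual K (X → K)) : Submodule (B K X)ᵐᵒᵖ (B K X)ᵐᵒᵖ where
  carrier := {s | ∀ (m : ℕ) (α : Fn K X), Dep m α → ∃ n₀, ∀ n ≥ n₀,
    F f n ((s.unop : Module.End K (Fn K X)) α) = 0}
  add_mem' := by
    intro s t hs ht m α hα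
    obtain ⟨n, hn⟩ := hs m α hα
    obtain ⟨n', hn'⟩ := ht m α hα
    refine ⟨max n n', fun l hl => ?_⟩
    rw [unop_add, Subring.coe_add, LinearMap.add_apply, map_add,
      hn l ((le_max_left _ _).trans hl), hn' l ((le_max_right _ _).trans hl), add_zero]
  zero_mem' := by
    intro m α hα
    refine ⟨0, fun n _ => ?_⟩
    rw [unop_zero, Subring.coe_zero, LinearMap.zero_apply, map_zero]
  smul_mem' := by
    intro r s hs m α hα
    obtain ⟨d, hd⟩ := exists_Lo r.unop.2
    obtain ⟨n, hn⟩ := hs _ _ (Lo_dep hd hα)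
    refine ⟨n, fun l hl => ?_⟩
    rw [smul_eq_mul, unop_mul, Subring.coe_mul, Module.End.mul_apply]
    exact hn l hl

theorem mem_I {f : Module.Dual K (X → K)} {s : (B K X)ᵐᵒᵖ} : s ∈ I f ↔ ∀ (m : ℕ) (α : Fn K X), Dep m α →
    ∃ n₀, ∀ n ≥ n₀, F f n ((s.unop : Module.End K (Fn K X)) α) = 0 := Iff.rfl

/-- An element outside the ideal. -/
theorem exists_of_notMem {f : Module.Dual K (X → K)} (hf : f (fun _ => 1) = 1) {s : (B K X)ᵐᵒᵖ}
    (hs : s ∉ I f) : ∃ n₀, ∀ n ≥ n₀, (s.unop : Module.End K (Fn K X)) ∈ Lo n ∧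
      ∃ α, Dep n α ∧ F f n ((s.unop : Module.End K (Fn K X)) α) = 1 := by
  rw [mem_I] at hs
  push Not at hs
  obtain ⟨m, α, hα, h⟩ := hs
  obtain ⟨d, hd⟩ := exists_Lo s.unop.2
  have h1 := Lo_dep hd hα
  obtain ⟨l, hl, hne⟩ := h (max m d)
  rw [F_dep hf hl h1] at hne
  set v := F f (max m d) ((s.unop : Module.End K (Fn K X)) α) with hv
  refine ⟨max m d, fun n hn => ⟨Lo_mono ((le_max_right _ _).trans hn) hd, v⁻¹ • α,
    fun x y hxy => ?_, ?_⟩⟩
  · rw [Pi.smul_apply, Pi.smul_apply, hα x y fun i hi =>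
      hxy i (hi.trans_le ((le_max_left _ _).trans hn))]
  · rw [map_smul, map_smul, F_dep hf hn h1, smul_eq_mul]
    exact inv_mul_cancel₀ hne

/-- The element `op (Qop n 1)`. -/
def Z (n : ℕ) : (B K X)ᵐᵒᵖ := op ⟨Qop n fun _ => 1, Qop_mem_B (dep_one n)⟩

theorem Z_notMem {f : Module.Dual K (X → K)} (hf : f (fun _ => 1) = 1) (n : ℕ) : Z n ∉ I f := by
  intro h
  obtain ⟨l, hl⟩ := h 0 (fun _ => 1) (dep_one 0)
  have h1 := hl l le_rfl
  have h2 : ((Z n : (B K X)ᵐᵒᵖ).unop : Module.End K (Fn K X)) (fun _ => 1) = fun _ => 1 := by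
    funext x
    change (1 : K) * 1 = 1
    rw [one_mul]
  rw [h2, F_one hf] at h1
  exact one_ne_zero h1

theorem op_mul_sub_mem {f : Module.Dual K (X → K)} (hf : f (fun _ => 1) = 1) {s : (B K X)ᵐᵒᵖ} {n : ℕ}
    (hs : (s.unop : Module.End K (Fn K X)) ∈ Lo n) {α : Fn K X} (hα : Dep n α)
    (h : F f n ((s.unop : Module.End K (Fn K X)) α) = 1) :
    op (⟨Qop n α, Qop_mem_B hα⟩ : (B K X)) * s - Z n ∈ I f := by
  intro m φ hφ
  refine ⟨max n m, fun l hl => ?_⟩
  have h1 := F_Qop hf ((le_max_left _ _).trans hl) ((le_max_right _ _).trans hl) hs hα hφ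
  have h2 : (((op (⟨Qop n α, Qop_mem_B hα⟩ : (B K X)) * s - Z n).unop : (B K X)) : Module.End K (Fn K X)) φ =
      (s.unop : Module.End K (Fn K X)) (Qop n α φ) - fun x => φ (splice n 0 x) := by
    funext x
    change (s.unop : Module.End K (Fn K X)) (Qop n α φ) x - 1 * φ (splice n 0 x) = _
    rw [one_mul]
    rfl
  rw [h2, map_sub, h1, h, one_mul, sub_self]

theorem uniform_I {f : Module.Dual K (X → K)} (hf : f (fun _ => 1) = 1) (a b : (B K X)ᵐᵒᵖ)
    (ha : a ∉ I f) (hb : b ∉ I f) : ∃ s t : (B K X)ᵐᵒᵖ, s * a - t * b ∈ I f ∧ s * a ∉ I f := by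
  obtain ⟨n, hn⟩ := exists_of_notMem hf ha
  obtain ⟨m, hm⟩ := exists_of_notMem hf hb
  obtain ⟨ha', α, hα, hα'⟩ := hn _ (le_max_left n m)
  obtain ⟨hb', β, hβ, hβ'⟩ := hm _ (le_max_right n m)
  have h1 := op_mul_sub_mem hf ha' hα hα'
  have h2 := op_mul_sub_mem hf hb' hβ hβ'
  refine ⟨op (⟨Qop _ α, Qop_mem_B hα⟩ : (B K X)), op (⟨Qop _ β, Qop_mem_B hβ⟩ : (B K X)), ?_, ?_⟩
  · have := (I f).sub_mem h1 h2
    rwa [sub_sub_sub_cancel_right] at this
  · intro h
    have := (I f).sub_mem h h1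
    rw [sub_sub_cancel] at this
    exact Z_notMem hf _ this

/-- The functional can be recovered from the module. -/
theorem eq_of_common {f g : Module.Dual K (X → K)} (hf : f (fun _ => 1) = 1)
    (hg : g (fun _ => 1) = 1) {N : Type} [AddCommGroup N] [Module (B K X)ᵐᵒᵖ N] (x y : N)
    (hx : ∀ s : (B K X)ᵐᵒᵖ, s • x = 0 ↔ s ∈ I f) (hy : ∀ s : (B K X)ᵐᵒᵖ, s • y = 0 ↔ s ∈ I g)
    (a b : (B K X)ᵐᵒᵖ) (hab : a • x = b • y) (hne : a • x ≠ 0) : f = g := by
  have ha : a ∉ I f := fun h => hne ((hx a).2 h)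
  have hb : b ∉ I g := fun h => hne (by rw [hab]; exact (hy b).2 h)
  obtain ⟨n₁, hn₁⟩ := exists_of_notMem hf ha
  obtain ⟨d, hd⟩ := exists_Lo b.unop.2
  set n := max n₁ d with hn
  obtain ⟨haL, α, hα, hα1⟩ := hn₁ n (le_max_left _ _)
  have hbL : (b.unop : Module.End K (Fn K X)) ∈ Lo n := Lo_mono (le_max_right _ _) hd
  -- the test operators
  let γ : (X → K) → Fn K X := fun β x => α x * β (x n)
  have hγ : ∀ β, Dep (n + 1) (γ β) := by
    intro β x y hxy
    simp only [γ]
    rw [hα x y fun i hi => hxy i (by omega), hxy n (by omega)]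
  have hβtail : ∀ β : X → K, Tail n (fun x => β (x n)) := fun β x y hxy => by
    simp only [hxy n le_rfl]
  have key : ∀ (f' : Module.Dual K (X → K)) (s : (B K X)ᵐᵒᵖ), f' (fun _ => 1) = 1 →
      (s.unop : Module.End K (Fn K X)) ∈ Lo n → ∀ β : X → K,
      (op (⟨Qop (n + 1) (γ β), Qop_mem_B (hγ β)⟩ : (B K X)) * s ∈ I f' ↔
        F f' n ((s.unop : Module.End K (Fn K X)) α) * f' β = 0) := by
    intro f' s hf' hs β
    have e1 : F f' (n + 1) ((s.unop : Module.End K (Fn K X)) (γ β)) =
        F f' n ((s.unop : Module.End K (Fn K X)) α) * f' β := by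
      have e2 : γ β = α * fun x => β (x n) := rfl
      rw [e2, Lo_mul_tail hs (hβtail β), F_succ, P_mul f' le_rfl (by
        have := Lo_dep hs hα
        rwa [max_self] at this)]
      have e3 : P f' n (fun x => β (x n)) = f' β • fun _ : Sq X => (1 : K) := by
        funext x
        rw [P_apply, Pi.smul_apply, smul_eq_mul, mul_one]
        congr 1
        funext j
        rw [Function.update_self]
      have e4 : (s.unop : Module.End K (Fn K X)) α * (f' β • fun _ : Sq X => (1 : K)) =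
          f' β • (s.unop : Module.End K (Fn K X)) α := by
        funext x
        simp only [Pi.mul_apply, Pi.smul_apply, smul_eq_mul, mul_one]
        ring
      rw [e3, e4, map_smul, smul_eq_mul, mul_comm]
    have hs' : (s.unop : Module.End K (Fn K X)) ∈ Lo (n + 1) := Lo_mono n.le_succ hs
    have e5 : ∀ φ : Fn K X, (((op (⟨Qop (n + 1) (γ β), Qop_mem_B (hγ β)⟩ : (B K X)) * s).unop : (B K X)) :
        Module.End K (Fn K X)) φ = (s.unop : Module.End K (Fn K X)) (Qop (n + 1) (γ β) φ) := fun φ => rfl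
    constructor
    · intro h
      obtain ⟨l, hl⟩ := h 0 (fun _ => 1) (dep_one 0)
      have h1 := hl (max l (n + 1)) (le_max_left _ _)
      rw [e5, F_Qop hf' (le_max_right _ _) (Nat.zero_le _) hs' (hγ β) (dep_one 0), e1] at h1
      have h2 : F f' (max l (n + 1)) (fun x => (fun _ : Sq X => (1 : K)) (splice (n + 1) 0 x)) = 1 :=
        F_one hf' _
      rw [h2, mul_one] at h1
      exact h1
    · intro h m φ hφ
      refine ⟨max (n + 1) m, fun l hl => ?_⟩
      rw [e5, F_Qop hf' ((le_max_left _ _).trans hl) ((le_max_right _ _).trans hl) hs' (hγ β) hφ,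
        e1, h, zero_mul]
  have hiff : ∀ β : X → K, F f n ((a.unop : Module.End K (Fn K X)) α) * f β = 0 ↔
      F g n ((b.unop : Module.End K (Fn K X)) α) * g β = 0 := by
    intro β
    rw [← key f a hf haL β, ← key g b hg hbL β, ← hx, ← hy, mul_smul, mul_smul, hab]
  have hb1 : F g n ((b.unop : Module.End K (Fn K X)) α) ≠ 0 := by
    intro h
    have h1 := (hiff fun _ => 1).2 (by rw [h, zero_mul])
    rw [hα1, hf, one_mul] at h1
    exact one_ne_zero h1
  have hker : ∀ β, f β = 0 ↔ g β = 0 := by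
    intro β
    have h1 := hiff β
    rw [hα1, one_mul, mul_eq_zero, or_iff_right hb1] at h1
    exact h1
  refine LinearMap.ext fun β => ?_
  have h2 : f (β - f β • fun _ => (1 : K)) = 0 := by
    rw [map_sub, map_smul, hf, smul_eq_mul, mul_one, sub_self]
  have h3 := (hker _).1 h2
  rw [map_sub, map_smul, hg, smul_eq_mul, mul_one, sub_eq_zero] at h3
  exact h3.symm

/-! ### Cardinalities -/

theorem one_notMem_I {f : Module.Dual K (X → K)} (hf : f (fun _ => 1) = 1) : (1 : (B K X)ᵐᵒᵖ) ∉ I f := by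
  intro h
  have : Z 0 ∈ I f := by
    have := (I f).smul_mem (Z 0) h
    rwa [smul_eq_mul, mul_one] at this
  exact Z_notMem hf 0 this

theorem exists_right (f : {f : Module.Dual K (X → K) // f (fun _ => 1) = 1}) :
    ∃ N : IndecPureInj (B K X)ᵐᵒᵖ, Module.Injective (B K X)ᵐᵒᵖ N.carrier ∧ ∃ x : N.carrier,
      ∀ s : (B K X)ᵐᵒᵖ, s • x = 0 ↔ s ∈ I f.1 :=
  exists_hull (I f.1) (one_notMem_I f.2) (uniform_I f.2)

theorem right_injective : ∃ Φ : {f : Module.Dual K (X → K) // f (fun _ => 1) = 1} → RightZg (B K X),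
    Function.Injective Φ := by
  choose N hN x hx using exists_right (K := K) (X := X)
  refine ⟨fun f => cls (N f), fun f g h => ?_⟩
  obtain ⟨e⟩ : Nonempty ((N f).carrier ≃ₗ[(B K X)ᵐᵒᵖ] (N g).carrier) := Quotient.exact h
  have hx0 : e (x f) ≠ 0 := by
    intro h0
    have : x f = 0 := e.map_eq_zero_iff.1 h0
    exact one_notMem_I f.2 ((hx f 1).1 (by rw [this, smul_zero]))
  have hy0 : x g ≠ 0 := by
    intro h0
    exact one_notMem_I g.2 ((hx g 1).1 (by rw [h0, smul_zero]))
  obtain ⟨a, b, hab, hne⟩ := uniform_of_injective (hN g) (N g).indec _ _ hx0 hy0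
  refine Subtype.ext (eq_of_common f.2 g.2 (e (x f)) (x g) (fun s => ?_) (hx g) a b hab hne)
  rw [← map_smul, e.map_eq_zero_iff, hx f]

theorem left_injective : ∃ Ψ : LeftZg (B K X) → Set (ℕ × List (K × List X)), Function.Injective Ψ := by
  have hex : ∀ c : LeftZg (B K X), ∃ (N : IndecPureInj (B K X)) (x : N.carrier), cls N = c ∧ x ≠ 0 := by
    intro c
    obtain ⟨N, hN⟩ := Quotient.exists_rep c
    obtain ⟨x, hx⟩ := @exists_ne _ N.indec.1 (0 : N.carrier)
    exact ⟨N, x, hN, hx⟩
  choose N x hN hx using hex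
  refine ⟨fun c => {p | (⟨cop p.1 p.2, (isC_cop p.1 p.2).mem_B⟩ : (B K X)) • x c = 0}, fun c d h => ?_⟩
  have hi : ∀ c, Module.Injective (B K X) (N c).carrier := fun c =>
    injective_of_pinj B_regular (N c).pinj
  have hu : ∀ c, ∀ x y : (N c).carrier, x ≠ 0 → y ≠ 0 → ∃ a b : (B K X), a • x = b • y ∧ a • x ≠ 0 :=
    fun c x y hx hy => uniform_of_injective (hi c) (N c).indec x y hx hy
  have hdata : ∀ n L, (⟨cop n L, (isC_cop n L).mem_B⟩ : (B K X)) • x c = 0 ↔
      (⟨cop n L, (isC_cop n L).mem_B⟩ : (B K X)) • x d = 0 := by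
    intro n L
    have := congrArg (fun A : Set (ℕ × List (K × List X)) => (n, L) ∈ A) h
    exact iff_of_eq this
  rw [← hN c, ← hN d]
  apply Quotient.sound
  refine iso_of_ann (hi c) (hi d) (N c).indec (N d).indec (x c) (x d) (hx c) fun s => ⟨?_, ?_⟩
  · exact ann_determined (hu c) (hu d) (x c) (x d) (hx c) hdata s
  · exact ann_determined (hu d) (hu c) (x d) (x c) (hx d) (fun n L => (hdata n L).symm) s

end Pool.Agent.H82.Zg
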